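import Pool.Agent.Lib_helper84.TAA.Moeb

/-!
TorusAA: the one-parameter inequality for `e = 1/8`, `a = ρ/3`.
-/

namespace Pool.Agent.TAA

open Real MeasureTheory intervalIntegral

/-- third Taylor polynomial of `(1+y)^(-r)` -/
noncomputable def P3 (r y : ℝ) : ℝ := 1 - r * y + r * (r+1) / 2 * y^2 - r * (r+1) * (r+2) / 6 * y^3

section taylor

/-- a function on `(0,∞)` vanishing at `1` with nonpositive derivative -/
lemma anti_sign {g g' : ℝ → ℝ} (hd : ∀ x, 0 < x → HasDerivAt g (g' x) x) (h1 : g 1 = 0)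
    (hs : ∀ x, 0 < x → g' x ≤ 0) : (∀ x, 0 < x → x ≤ 1 → 0 ≤ g x) ∧ (∀ x, 1 ≤ x → g x ≤ 0) := by
  have hanti : AntitoneOn g (Set.Ioi 0) := by
    apply antitoneOn_of_deriv_nonpos (convex_Ioi 0)
    · intro x hx; exact (hd x hx).continuousAt.continuousWithinAt
    · intro x hx
      rw [interior_Ioi] at hx
      exact (hd x hx).differentiableAt.differentiableWithinAt
    · intro x hx
      rw [interior_Ioi] at hx
      rw [(hd x hx).deriv]; exact hs x hx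
  constructor
  · intro x hx hx1
    rw [← h1]
    exact hanti hx (Set.mem_Ioi.mpr one_pos) hx1
  · intro x hx
    rw [← h1]
    exact hanti (Set.mem_Ioi.mpr one_pos) (Set.mem_Ioi.mpr (lt_of_lt_of_le one_pos hx)) hx

/-- a function on `(0,∞)` with minimum `0` at `1` -/
lemma min_sign {g g' : ℝ → ℝ} (hd : ∀ x, 0 < x → HasDerivAt g (g' x) x) (h1 : g 1 = 0)
    (hs : ∀ x, 0 < x → x ≤ 1 → g' x ≤ 0) (hs2 : ∀ x, 1 ≤ x → 0 ≤ g' x) :
    ∀ x, 0 < x → 0 ≤ g x := by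
  have hanti : AntitoneOn g (Set.Ioc 0 1) := by
    apply antitoneOn_of_deriv_nonpos (convex_Ioc 0 1)
    · intro x hx; exact (hd x hx.1).continuousAt.continuousWithinAt
    · intro x hx
      rw [interior_Ioc] at hx
      exact (hd x hx.1).differentiableAt.differentiableWithinAt
    · intro x hx
      rw [interior_Ioc] at hx
      rw [(hd x hx.1).deriv]; exact hs x hx.1 hx.2.le
  have hmono : MonotoneOn g (Set.Ici 1) := by
    apply monotoneOn_of_deriv_nonneg (convex_Ici 1)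
    · intro x hx
      exact (hd x (lt_of_lt_of_le one_pos hx)).continuousAt.continuousWithinAt
    · intro x hx
      rw [interior_Ici] at hx
      exact (hd x (one_pos.trans hx)).differentiableAt.differentiableWithinAt
    · intro x hx
      rw [interior_Ici] at hx
      rw [(hd x (one_pos.trans hx)).deriv]; exact hs2 x (le_of_lt hx)
  intro x hx
  rcases le_total x 1 with h | h
  · rw [← h1]
    exact hanti ⟨hx, h⟩ ⟨one_pos, le_rfl⟩ h
  · rw [← h1]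
    exact hmono (Set.mem_Ici.mpr le_rfl) (Set.mem_Ici.mpr h) h

lemma hasDeriv_neg_rpow (r : ℝ) {x : ℝ} (hx : 0 < x) :
    HasDerivAt (fun x : ℝ => x ^ (-r)) (-r * x ^ (-(r+1))) x := by
  have := Real.hasDerivAt_rpow_const (x := x) (p := -r) (Or.inl hx.ne')
  rw [show -(r+1) = -r - 1 by ring]
  exact this

lemma R0_sign {r : ℝ} (hr : 0 < r) : (∀ x : ℝ, 0 < x → x ≤ 1 → 0 ≤ x ^ (-r) - 1) ∧
    (∀ x : ℝ, 1 ≤ x → x ^ (-r) - 1 ≤ 0) := by
  apply anti_sign (g' := fun x => -r * x ^ (-(r+1)))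
  · intro x hx
    exact (hasDeriv_neg_rpow r hx).sub_const 1
  · simp
  · intro x hx
    have : 0 < x ^ (-(r+1)) := Real.rpow_pos_of_pos hx _
    nlinarith [mul_pos hr this]

lemma R1_nonneg {r : ℝ} (hr : 0 < r) : ∀ x : ℝ, 0 < x → 0 ≤ x ^ (-r) - 1 + r * (x - 1) := by
  have h0 := R0_sign (r := r + 1) (by linarith)
  apply min_sign (g' := fun x => -r * (x ^ (-(r+1)) - 1))
  · intro x hx
    have h1 : HasDerivAt (fun x : ℝ => x ^ (-r) - 1 + r * (x - 1))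
        (-r * x ^ (-(r+1)) + r * 1) x :=
      ((hasDeriv_neg_rpow r hx).sub_const 1).fun_add (((hasDerivAt_id' x).sub_const 1).const_mul r)
    convert h1 using 1; ring
  · simp
  · intro x hx hx1
    have := h0.1 x hx hx1
    nlinarith [mul_nonneg hr.le this]
  · intro x hx
    have := h0.2 x hx
    nlinarith [mul_nonneg hr.le (neg_nonneg.mpr this)]

lemma R2_sign {r : ℝ} (hr : 0 < r) :
    (∀ x : ℝ, 0 < x → x ≤ 1 → 0 ≤ x ^ (-r) - 1 + r * (x - 1) - r * (r+1) / 2 * (x - 1)^2) ∧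
    (∀ x : ℝ, 1 ≤ x → x ^ (-r) - 1 + r * (x - 1) - r * (r+1) / 2 * (x - 1)^2 ≤ 0) := by
  have h0 := R1_nonneg (r := r + 1) (by linarith)
  apply anti_sign (g' := fun x => -r * (x ^ (-(r+1)) - 1 + (r+1) * (x - 1)))
  · intro x hx
    have e1 : HasDerivAt (fun x : ℝ => (x - 1)^2) (2 * (x - 1)) x := by
      have := ((hasDerivAt_id' x).sub_const (1:ℝ)).fun_pow 2
      simpa using this
    have h1 : HasDerivAt (fun x : ℝ => x ^ (-r) - 1 + r * (x - 1) - r * (r+1) / 2 * (x - 1)^2)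
        (-r * x ^ (-(r+1)) + r * 1 - r * (r+1) / 2 * (2 * (x - 1))) x :=
      (((hasDeriv_neg_rpow r hx).sub_const 1).fun_add
        (((hasDerivAt_id' x).sub_const 1).const_mul r)).fun_sub (e1.const_mul _)
    convert h1 using 1; ring
  · simp
  · intro x hx
    have := h0 x hx
    nlinarith [mul_nonneg hr.le this]

lemma R3_nonneg {r : ℝ} (hr : 0 < r) : ∀ x : ℝ, 0 < x →
    0 ≤ x ^ (-r) - 1 + r * (x - 1) - r * (r+1) / 2 * (x - 1)^2
      + r * (r+1) * (r+2) / 6 * (x - 1)^3 := by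
  have h0 := R2_sign (r := r + 1) (by linarith)
  apply min_sign (g' := fun x => -r * (x ^ (-(r+1)) - 1 + (r+1) * (x - 1)
    - (r+1) * (r+1+1) / 2 * (x - 1)^2))
  · intro x hx
    have e1 : HasDerivAt (fun x : ℝ => (x - 1)^2) (2 * (x - 1)) x := by
      have := ((hasDerivAt_id' x).sub_const (1:ℝ)).fun_pow 2
      simpa using this
    have e2 : HasDerivAt (fun x : ℝ => (x - 1)^3) (3 * (x - 1)^2) x := by
      have := ((hasDerivAt_id' x).sub_const (1:ℝ)).fun_pow 3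
      simpa using this
    have h1 : HasDerivAt (fun x : ℝ => x ^ (-r) - 1 + r * (x - 1) - r * (r+1) / 2 * (x - 1)^2
        + r * (r+1) * (r+2) / 6 * (x - 1)^3)
        (-r * x ^ (-(r+1)) + r * 1 - r * (r+1) / 2 * (2 * (x - 1))
          + r * (r+1) * (r+2) / 6 * (3 * (x - 1)^2)) x :=
      ((((hasDeriv_neg_rpow r hx).sub_const 1).fun_add
        (((hasDerivAt_id' x).sub_const 1).const_mul r)).fun_sub (e1.const_mul _)).fun_add
        (e2.const_mul _)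
    convert h1 using 1; ring
  · simp
  · intro x hx hx1
    have := h0.1 x hx hx1
    nlinarith [mul_nonneg hr.le this]
  · intro x hx
    have := h0.2 x hx
    nlinarith [mul_nonneg hr.le (neg_nonneg.mpr this)]

lemma P3_le {r X : ℝ} (hr : 0 < r) (hX : 0 < X) : P3 r (X - 1) ≤ X ^ (-r) := by
  have := R3_nonneg hr X hX
  unfold P3
  linarith

lemma P3_le_scaled {r X X₀ : ℝ} (hr : 0 < r) (hX : 0 < X) (hX₀ : 0 < X₀) :
    X₀ ^ (-r) * P3 r (X / X₀ - 1) ≤ X ^ (-r) := by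
  have h1 := P3_le (r := r) hr (div_pos hX hX₀)
  have h2 : X ^ (-r) = X₀ ^ (-r) * (X / X₀) ^ (-r) := by
    rw [← Real.mul_rpow hX₀.le (div_pos hX hX₀).le]
    congr 1; field_simp
  rw [h2]
  have : 0 < X₀ ^ (-r) := Real.rpow_pos_of_pos hX₀ _
  gcongr

end taylor

lemma cos_pow_red (n : ℕ) : ∫ x in (0:ℝ)..(2*π), Real.cos x ^ (n+2) =
    ((n:ℝ) + 1) / (n + 2) * ∫ x in (0:ℝ)..(2*π), Real.cos x ^ n := by
  rw [integral_cos_pow]; simp

lemma int_poly (A0 A1 A2 A3 A4 A5 A6 A7 : ℝ) :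
    ∫ x in (0:ℝ)..(2*π), (A0 + A1 * Real.cos x + A2 * Real.cos x ^ 2 + A3 * Real.cos x ^ 3
      + A4 * Real.cos x ^ 4 + A5 * Real.cos x ^ 5 + A6 * Real.cos x ^ 6 + A7 * Real.cos x ^ 7) =
    2 * π * (A0 + A2 / 2 + 3 * A4 / 8 + 5 * A6 / 16) := by
  have c0 : ∫ x in (0:ℝ)..(2*π), Real.cos x ^ 0 = 2 * π := by simp
  have c1 : ∫ x in (0:ℝ)..(2*π), Real.cos x ^ 1 = 0 := by simp
  have c2 : ∫ x in (0:ℝ)..(2*π), Real.cos x ^ 2 = π := by
    rw [cos_pow_red 0, c0]; push_cast; ring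
  have c3 : ∫ x in (0:ℝ)..(2*π), Real.cos x ^ 3 = 0 := by rw [cos_pow_red 1, c1]; ring
  have c4 : ∫ x in (0:ℝ)..(2*π), Real.cos x ^ 4 = 3 / 4 * π := by
    rw [cos_pow_red 2, c2]; push_cast; ring
  have c5 : ∫ x in (0:ℝ)..(2*π), Real.cos x ^ 5 = 0 := by rw [cos_pow_red 3, c3]; ring
  have c6 : ∫ x in (0:ℝ)..(2*π), Real.cos x ^ 6 = 5 / 8 * π := by
    rw [cos_pow_red 4, c4]; push_cast; ring
  have c7 : ∫ x in (0:ℝ)..(2*π), Real.cos x ^ 7 = 0 := by rw [cos_pow_red 5, c5]; ring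
  have c1' : ∫ x in (0:ℝ)..(2*π), Real.cos x = 0 := by simp
  rw [intervalIntegral.integral_add, intervalIntegral.integral_add, intervalIntegral.integral_add,
    intervalIntegral.integral_add, intervalIntegral.integral_add, intervalIntegral.integral_add,
    intervalIntegral.integral_add]
  · simp only [intervalIntegral.integral_const_mul, intervalIntegral.integral_const, c1', c2, c3, c4,
      c5, c6, c7, smul_eq_mul]
    ring
  all_goals (apply Continuous.intervalIntegrable; fun_prop)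

/-- lower bound for `κ^(1/8)` -/
lemma kap_ge {κ : ℝ} (h0 : 0 < κ) : κ / (κ + (1 - κ) / 8) ≤ κ ^ (1/8 : ℝ) ∨ 1 < κ := by
  rcases le_or_gt κ 1 with h | h
  · left
    have h1 : (κ⁻¹) ^ (1/8 : ℝ) ≤ 1 + (1/8) * (κ⁻¹ - 1) := by
      have := rpow_one_add_le_one_add_mul_self (s := κ⁻¹ - 1)
        (by have := inv_pos.mpr h0; linarith) (p := (1/8 : ℝ)) (by norm_num) (by norm_num)
      simpa using this
    rw [Real.inv_rpow h0.le] at h1
    have h2 : 0 < κ ^ (1/8 : ℝ) := Real.rpow_pos_of_pos h0 _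
    have h3 : 0 < 1 + (1/8) * (κ⁻¹ - 1) := by
      have : 1 ≤ κ⁻¹ := (one_le_inv₀ h0).mpr h
      linarith
    have h4 : κ / (κ + (1 - κ) / 8) = (1 + (1/8) * (κ⁻¹ - 1))⁻¹ := by
      field_simp
    rw [h4, inv_le_comm₀ h3 h2]
    exact h1
  · right; exact h

/-- abstract form of the piecewise argument -/
lemma op_piece {r K u0 w0 : ℝ} (hr0 : 0 ≤ r) (hr1 : r ≤ 1) (hK0 : 0 ≤ K) (hu0 : 0 < u0)
    (hw0 : 0 < w0) (hK : K ≤ u0 ^ (-(1/8 : ℝ)) * w0 ^ (-(9/16 : ℝ)))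
    (hB : ∀ x : ℝ, |x| ≤ 1 → 0 ≤ P3 (9/16) ((1 + r^2/9 + 2/3 * r * x) / w0 - 1))
    (A0 A1 A2 A3 A4 A5 A6 A7 : ℝ)
    (hA : ∀ x : ℝ, (1 + r^2/3 + 4/3 * r * x) * P3 (1/8) ((1 + r^2/3 + 4/3 * r * x) / u0 - 1)
      * P3 (9/16) ((1 + r^2/9 + 2/3 * r * x) / w0 - 1) =
      A0 + A1 * x + A2 * x^2 + A3 * x^3 + A4 * x^4 + A5 * x^5 + A6 * x^6 + A7 * x^7)
    (hfin : 1 - 7 * (r^2/9) / 8 ≤
      K * (A0 + A2 / 2 + 3 * A4 / 8 + 5 * A6 / 16) * (1 - r^2/9)) :
    2 * π ≤ ∫ φ in (0:ℝ)..(2*π),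
      |(1 + (r/3) * r + (r/3 + r) * Real.cos φ) / √(wf (r/3) φ)| ^ (1 - (1/8 : ℝ)) *
        ((1 - (r/3)^2) / wf (r/3) φ) ^ (1/8 : ℝ) := by
  have ha0 : 0 ≤ r/3 := by positivity
  have ha1 : r/3 < 1 := by linarith
  set κ : ℝ := 1 - r^2/9 with hκ
  have hκpos : 0 < κ := by rw [hκ]; nlinarith
  have hκle : κ ≤ 1 := by rw [hκ]; nlinarith [sq_nonneg r]
  have hkap : κ / (κ + (1 - κ) / 8) ≤ κ ^ (1/8 : ℝ) := by
    rcases kap_ge hκpos with h | h
    · exact h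
    · linarith
  have hpt : ∀ φ : ℝ, κ ^ (1/8 : ℝ) * (K * (A0 + A1 * Real.cos φ + A2 * Real.cos φ ^ 2
      + A3 * Real.cos φ ^ 3 + A4 * Real.cos φ ^ 4 + A5 * Real.cos φ ^ 5 + A6 * Real.cos φ ^ 6
      + A7 * Real.cos φ ^ 7)) ≤
      |(1 + (r/3) * r + (r/3 + r) * Real.cos φ) / √(wf (r/3) φ)| ^ (1 - (1/8 : ℝ)) *
        ((1 - (r/3)^2) / wf (r/3) φ) ^ (1/8 : ℝ) := by
    intro φ
    set x := Real.cos φ with hx
    have hxa : |x| ≤ 1 := Real.abs_cos_le_one φ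
    have hxb := abs_le.mp hxa
    rw [← hA x]
    set u : ℝ := 1 + r^2/3 + 4/3 * r * x with hu
    set w : ℝ := 1 + r^2/9 + 2/3 * r * x with hw
    have hwf : wf (r/3) φ = w := by unfold wf; rw [hw, hx]; ring
    have huf : 1 + (r/3) * r + (r/3 + r) * x = u := by rw [hu]; ring
    have hκf : 1 - (r/3)^2 = κ := by rw [hκ]; ring
    have hwpos : 0 < w := by rw [← hwf]; exact wf_pos ha0 ha1 φ
    have hu0' : 0 ≤ u := by
      rw [hu]; nlinarith [mul_nonneg (sub_nonneg.mpr hr1) (by linarith : (0:ℝ) ≤ 1 - r/3), mul_nonneg hr0 (by linarith : 0 ≤ 1 + x)]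
    rw [hwf, huf, hκf]
    have hsw : 0 < √w := Real.sqrt_pos.mpr hwpos
    rw [abs_of_nonneg (div_nonneg hu0' hsw.le), Real.div_rpow hu0' hsw.le,
      Real.div_rpow hκpos.le hwpos.le]
    have e78 : (1 - (1/8 : ℝ)) = 7/8 := by norm_num
    rw [e78]
    have hsq : (√w) ^ (7/8 : ℝ) = w ^ (7/16 : ℝ) := by
      rw [Real.sqrt_eq_rpow, ← Real.rpow_mul hwpos.le]; norm_num
    rw [hsq]
    have hcomb : u ^ (7/8 : ℝ) / w ^ (7/16 : ℝ) * (κ ^ (1/8 : ℝ) / w ^ (1/8 : ℝ)) =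
        κ ^ (1/8 : ℝ) * (u ^ (7/8 : ℝ) * w ^ (-(9/16 : ℝ))) := by
      have h1 : w ^ (-(9/16 : ℝ)) = (w ^ (7/16 : ℝ))⁻¹ * (w ^ (1/8 : ℝ))⁻¹ := by
        rw [← Real.rpow_neg hwpos.le, ← Real.rpow_neg hwpos.le, ← Real.rpow_add hwpos]
        norm_num
      rw [h1]; field_simp
    rw [hcomb]
    have hκ8 : 0 ≤ κ ^ (1/8 : ℝ) := Real.rpow_nonneg hκpos.le _
    apply mul_le_mul_of_nonneg_left _ hκ8
    rcases hu0'.eq_or_lt with hz | hz
    · rw [← hz]; simp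
    · have hu78 : u ^ (7/8 : ℝ) = u * u ^ (-(1/8 : ℝ)) := by
        nth_rewrite 2 [← Real.rpow_one u]
        rw [← Real.rpow_add hz]; norm_num
      rw [hu78]
      have hBx := hB x hxa
      have k1 := P3_le_scaled (r := 1/8) (by norm_num) hz hu0
      have k2 := P3_le_scaled (r := 9/16) (by norm_num) hwpos hw0
      have p1 : 0 < u0 ^ (-(1/8 : ℝ)) := Real.rpow_pos_of_pos hu0 _
      have p2 : 0 < w0 ^ (-(9/16 : ℝ)) := Real.rpow_pos_of_pos hw0 _
      have p3 : 0 < u ^ (-(1/8 : ℝ)) := Real.rpow_pos_of_pos hz _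
      have p4 : 0 < w ^ (-(9/16 : ℝ)) := Real.rpow_pos_of_pos hwpos _
      set a := P3 (1/8) (u / u0 - 1) with ha
      set b := P3 (9/16) (w / w0 - 1) with hb
      -- K * (u * a * b) ≤ u * u^(-1/8) * w^(-9/16)
      rcases le_total 0 a with hapos | haneg
      · have s1 : K * (u * a * b) ≤ (u0 ^ (-(1/8 : ℝ)) * w0 ^ (-(9/16 : ℝ))) * (u * a * b) := by
          have : 0 ≤ u * a * b := by positivity
          gcongr
        have s2 : (u0 ^ (-(1/8 : ℝ)) * w0 ^ (-(9/16 : ℝ))) * (u * a * b) =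
            u * ((u0 ^ (-(1/8 : ℝ)) * a) * (w0 ^ (-(9/16 : ℝ)) * b)) := by ring
        have s3 : (u0 ^ (-(1/8 : ℝ)) * a) * (w0 ^ (-(9/16 : ℝ)) * b) ≤
            u ^ (-(1/8 : ℝ)) * w ^ (-(9/16 : ℝ)) := by
          have : 0 ≤ w0 ^ (-(9/16 : ℝ)) * b := by positivity
          gcongr
        calc K * (u * a * b) ≤ _ := s1
          _ = _ := s2
          _ ≤ u * (u ^ (-(1/8 : ℝ)) * w ^ (-(9/16 : ℝ))) := by gcongr
          _ = _ := by ring
      · have : K * (u * a * b) ≤ 0 := by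
          have h1 : u * a ≤ 0 := mul_nonpos_of_nonneg_of_nonpos hz.le haneg
          have h2 : u * a * b ≤ 0 := mul_nonpos_of_nonpos_of_nonneg h1 hBx
          exact mul_nonpos_of_nonneg_of_nonpos hK0 h2
        exact this.trans (by positivity)
  have hcont := continuous_OPint (e := 1/8) (by norm_num) (by norm_num) ha0 ha1 r
  have hint : ∫ φ in (0:ℝ)..(2*π), κ ^ (1/8 : ℝ) * (K * (A0 + A1 * Real.cos φ + A2 * Real.cos φ ^ 2
      + A3 * Real.cos φ ^ 3 + A4 * Real.cos φ ^ 4 + A5 * Real.cos φ ^ 5 + A6 * Real.cos φ ^ 6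
      + A7 * Real.cos φ ^ 7)) ≤ ∫ φ in (0:ℝ)..(2*π),
      |(1 + (r/3) * r + (r/3 + r) * Real.cos φ) / √(wf (r/3) φ)| ^ (1 - (1/8 : ℝ)) *
        ((1 - (r/3)^2) / wf (r/3) φ) ^ (1/8 : ℝ) := by
    apply intervalIntegral.integral_mono_on (by positivity)
    · apply Continuous.intervalIntegrable; fun_prop
    · exact hcont.intervalIntegrable _ _
    · intro φ _; exact hpt φ
  refine le_trans ?_ hint
  rw [intervalIntegral.integral_const_mul, intervalIntegral.integral_const_mul, int_poly]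
  set S := A0 + A2 / 2 + 3 * A4 / 8 + 5 * A6 / 16 with hS
  have hden : κ + (1 - κ) / 8 = 1 - 7 * (r^2/9) / 8 := by rw [hκ]; ring
  have hdpos : 0 < 1 - 7 * (r^2/9) / 8 := by nlinarith
  have hKS : 1 ≤ κ ^ (1/8 : ℝ) * (K * S) := by
    have h1 : (1 - 7 * (r^2/9) / 8) / κ ≤ K * S := by
      rw [div_le_iff₀ hκpos]; exact hfin
    have h2 : 0 < (1 - 7 * (r^2/9) / 8) / κ := by positivity
    rw [hden] at hkap
    calc 1 = κ / (1 - 7 * (r^2/9) / 8) * ((1 - 7 * (r^2/9) / 8) / κ) := by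
          rw [div_mul_div_comm, mul_comm κ, div_self (mul_ne_zero hdpos.ne' hκpos.ne')]
      _ ≤ κ ^ (1/8 : ℝ) * (K * S) := by
          have : 0 ≤ κ / (1 - 7 * (r^2/9) / 8) := by positivity
          gcongr
  calc 2 * π = 2 * π * 1 := by ring
    _ ≤ 2 * π * (κ ^ (1/8 : ℝ) * (K * S)) := by
        have := Real.pi_pos
        gcongr
    _ = _ := by ring

lemma op_small {r : ℝ} (hr0 : 0 ≤ r) (hr1 : r ≤ 1/2) :
    2 * π ≤ ∫ φ in (0:ℝ)..(2*π),
      |(1 + (r/3) * r + (r/3 + r) * Real.cos φ) / √(wf (r/3) φ)| ^ (1 - (1/8 : ℝ)) *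
        ((1 - (r/3)^2) / wf (r/3) φ) ^ (1/8 : ℝ) := by
  refine op_piece (K := 1) (u0 := 1) (w0 := 1) hr0 (by linarith) (by norm_num) (by norm_num)
    (by norm_num) (by simp) ?_
    ((1/1 : ℝ) + (11/48 : ℝ) * r^2 - (29/1536 : ℝ) * r^4 + (4393/1990656 : ℝ) * r^6 - (20197/23887872 : ℝ) * r^8 + (104753/2293235712 : ℝ) * r^10 - (68375/18345885696 : ℝ) * r^12 + (17425/55037657088 : ℝ) * r^14) ((19/24 : ℝ) * r^1 - (191/1152 : ℝ) * r^3 + (3371/110592 : ℝ) * r^5 - (350095/23887872 : ℝ) * r^7 + (1176083/1146617856 : ℝ) * r^9 - (321475/3057647616 : ℝ) * r^11 + (296225/27518828544 : ℝ) * r^13) (- (391/1152 : ℝ) * r^2 + (2545/18432 : ℝ) * r^4 - (64123/663552 : ℝ) * r^6 + (5249519/573308928 : ℝ) * r^8 - (1874825/1528823808 : ℝ) * r^10 + (714425/4586471424 : ℝ) * r^12) ((1859/9216 : ℝ) * r^3 - (21179/73728 : ℝ) * r^5 + (1295393/31850496 : ℝ) * r^7 - (17365975/2293235712 : ℝ) * r^9 + (8555675/6879707136 : ℝ) *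 r^11) (- (1993/6144 : ℝ) * r^4 + (3731/41472 : ℝ) * r^6 - (554675/21233664 : ℝ) * r^8 + (1272025/214990848 : ℝ) * r^10) ((52643/663552 : ℝ) * r^5 - (253475/5308416 : ℝ) * r^7 + (400775/23887872 : ℝ) * r^9) (- (47975/1327104 : ℝ) * r^6 + (17425/663552 : ℝ) * r^8) ((17425/995328 : ℝ) * r^7) ?_ ?_
  · intro x hx
    have hxb := abs_le.mp hx
    set y := (1 + r^2/9 + 2/3 * r * x) / 1 - 1 with hy
    have hy1 : y ≤ 7/9 := by rw [hy]; nlinarith
    unfold P3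
    rcases le_total y 0 with h | h
    · have h3 : 0 ≤ -y^3 := by have := pow_nonneg (neg_nonneg.mpr h) 3; linarith [this, (by ring : (-y)^3 = -y^3)]
      nlinarith [sq_nonneg y]
    · have h3 : y^3 ≤ (7/9)^2 * y := by nlinarith [mul_nonneg h (mul_nonneg h h), mul_nonneg h (sub_nonneg.mpr hy1)]
      nlinarith [sq_nonneg y]
  · intro x; unfold P3; ring
  · set s := r^2 with hs
    have hs0 : 0 ≤ s := sq_nonneg r
    have hs1 : s ≤ 1/4 := by rw [hs]; nlinarith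
    have e4 : r^4 = s^2 := by rw [hs]; ring
    have e6 : r^6 = s^3 := by rw [hs]; ring
    have e8 : r^8 = s^4 := by rw [hs]; ring
    have e10 : r^10 = s^5 := by rw [hs]; ring
    have e12 : r^12 = s^6 := by rw [hs]; ring
    have e14 : r^14 = s^7 := by rw [hs]; ring
    rw [e4, e6, e8, e10, e12, e14]
    have hlow : (1:ℝ) + 0.0594 * s - 0.0775 * s^2 ≤ (1/1 : ℝ) + (137/2304 : ℝ) * s^1 - (10541/147456 : ℝ) * s^2 - (1507897/63700992 : ℝ) * s^3 + (9829577/4586471424 : ℝ) * s^4 + (1682993/1019215872 : ℝ) * s^5 + (1360475/18345885696 : ℝ) * s^6 + (17425/55037657088 : ℝ) * s^7 := by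
      have k3 : s^3 ≤ (1/4) * s^2 := by nlinarith [mul_nonneg hs0 hs0]
      have k4 : 0 ≤ s^4 := by positivity
      have k5 : 0 ≤ s^5 := by positivity
      have k6 : 0 ≤ s^6 := by positivity
      have k7 : 0 ≤ s^7 := by positivity
      nlinarith [sq_nonneg s]
    have hfac : 0 ≤ 1 - s/9 := by linarith
    have h1 := mul_le_mul_of_nonneg_right hlow hfac
    have h2 : 1 - 7 * (s/9) / 8 ≤ (1 + 0.0594 * s - 0.0775 * s^2) * (1 - s/9) := by
      nlinarith [mul_nonneg hs0 (sub_nonneg.mpr hs1), mul_nonneg (mul_nonneg hs0 hs0) hs0]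
    refine h2.trans (h1.trans (le_of_eq ?_))
    ring

lemma op_big {r : ℝ} (hr0 : 1/2 ≤ r) (hr1 : r ≤ 1) :
    2 * π ≤ ∫ φ in (0:ℝ)..(2*π),
      |(1 + (r/3) * r + (r/3 + r) * Real.cos φ) / √(wf (r/3) φ)| ^ (1 - (1/8 : ℝ)) *
        ((1 - (r/3)^2) / wf (r/3) φ) ^ (1/8 : ℝ) := by
  have hK : (0.8579 : ℝ) ≤ (3/2 : ℝ) ^ (-(1/8 : ℝ)) * (6/5 : ℝ) ^ (-(9/16 : ℝ)) := by
    have h1 : ((3/2 : ℝ) ^ (-(1/8 : ℝ)) * (6/5 : ℝ) ^ (-(9/16 : ℝ))) ^ (16:ℕ) =
        ((3/2 : ℝ)^2 * (6/5 : ℝ)^9)⁻¹ := by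
      rw [mul_pow, ← Real.rpow_natCast, ← Real.rpow_natCast, ← Real.rpow_mul (by norm_num),
        ← Real.rpow_mul (by norm_num), mul_inv, ← Real.rpow_natCast (3/2 : ℝ) 2,
        ← Real.rpow_natCast (6/5 : ℝ) 9, ← Real.rpow_neg (by norm_num), ← Real.rpow_neg (by norm_num)]
      norm_num
    have h2 : (0.8579 : ℝ) ^ (16:ℕ) ≤ ((3/2 : ℝ)^2 * (6/5 : ℝ)^9)⁻¹ := by norm_num
    rw [← h1] at h2
    exact le_of_pow_le_pow_left₀ (by norm_num) (by positivity) h2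
  refine op_piece (K := 0.8579) (u0 := 3/2) (w0 := 6/5) (by linarith) hr1 (by norm_num) (by norm_num)
    (by norm_num) hK ?_
    ((6330259705/5435817984 : ℝ) + (2199277915/8153726976 : ℝ) * r^2 - (1789904845/73383542784 : ℝ) * r^4 + (431053055/123834728448 : ℝ) * r^6 - (5171144885/11888133931008 : ℝ) * r^8 + (1656445/73383542784 : ℝ) * r^10 - (37604375/26748301344768 : ℝ) * r^12 + (2178125/40122452017152 : ℝ) * r^14) ((7621981295/8153726976 : ℝ) * r^1 - (5254681505/24461180928 : ℝ) * r^3 + (3495086215/73383542784 : ℝ) * r^5 - (46840526125/5944066965504 : ℝ) * r^7 + (516686665/990677827584 : ℝ) * r^9 - (179288125/4458050224128 : ℝ) * r^11 + (37028125/20061226008576 : ℝ) * r^13) (- (606638135/1358954496 : ℝ) * r^2 + (994420975/4586471424 : ℝ) * r^4 - (17858668765/330225942528 : ℝ) * r^6 + (2373995845/495338913792 : ℝ) * r^8 - (1060930625/2229025112064 : ℝ) * r^10 + (89303125/3343537668096 : ℝ) * r^12)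 ((1990478135/6115295232 : ℝ) * r^3 - (9162793805/55037657088 : ℝ) * r^5 + (5426156935/247669456896 : ℝ) * r^7 - (9975863125/3343537668096 : ℝ) * r^9 + (1069459375/5015306502144 : ℝ) * r^11) (- (888053585/4586471424 : ℝ) * r^4 + (128598535/2579890176 : ℝ) * r^6 - (323560625/30958682112 : ℝ) * r^8 + (159003125/156728328192 : ℝ) * r^10) ((8632655/191102976 : ℝ) * r^5 - (150175625/7739670528 : ℝ) * r^7 + (50096875/17414258688 : ℝ) * r^9) (- (28870625/1934917632 : ℝ) * r^6 + (2178125/483729408 : ℝ) * r^8) ((2178125/725594112 : ℝ) * r^7) ?_ ?_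
  · intro x hx
    have hxb := abs_le.mp hx
    set y := (1 + r^2/9 + 2/3 * r * x) / (6/5) - 1 with hy
    have hy1 : y ≤ 7/9 := by rw [hy]; nlinarith
    unfold P3
    rcases le_total y 0 with h | h
    · have h3 : 0 ≤ -y^3 := by have := pow_nonneg (neg_nonneg.mpr h) 3; linarith [this, (by ring : (-y)^3 = -y^3)]
      nlinarith [sq_nonneg y]
    · have h3 : y^3 ≤ (7/9)^2 * y := by nlinarith [mul_nonneg h (mul_nonneg h h), mul_nonneg h (sub_nonneg.mpr hy1)]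
      nlinarith [sq_nonneg y]
  · intro x; unfold P3; ring
  · set s := r^2 with hs
    have hs0 : 1/4 ≤ s := by rw [hs]; nlinarith
    have hs1 : s ≤ 1 := by rw [hs]; nlinarith
    have hs00 : 0 ≤ s := by linarith
    have e4 : r^4 = s^2 := by rw [hs]; ring
    have e6 : r^6 = s^3 := by rw [hs]; ring
    have e8 : r^8 = s^4 := by rw [hs]; ring
    have e10 : r^10 = s^5 := by rw [hs]; ring
    have e12 : r^12 = s^6 := by rw [hs]; ring
    have e14 : r^14 = s^7 := by rw [hs]; ring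
    rw [e4, e6, e8, e10, e12, e14]
    have hlow : (1.1645:ℝ) + 0.0465 * s ≤ (6330259705/5435817984 : ℝ) + (189681755/4076863488 : ℝ) * s^1 + (837141445/73383542784 : ℝ) * s^2 - (18881379335/1981355655168 : ℝ) * s^3 - (6547924745/11888133931008 : ℝ) * s^4 + (8828780905/53496602689536 : ℝ) * s^5 + (319608125/26748301344768 : ℝ) * s^6 + (2178125/40122452017152 : ℝ) * s^7 := by
      have k3 : s^3 ≤ s^2 := by nlinarith [mul_nonneg hs00 hs00, mul_nonneg (mul_nonneg hs00 hs00) (sub_nonneg.mpr hs1)]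
      have k4 : s^4 ≤ s^2 := by nlinarith [mul_nonneg (mul_nonneg hs00 hs00) (sub_nonneg.mpr hs1), mul_nonneg (mul_nonneg (mul_nonneg hs00 hs00) hs00) (sub_nonneg.mpr hs1)]
      have k5 : 0 ≤ s^5 := by positivity
      have k6 : 0 ≤ s^6 := by positivity
      have k7 : 0 ≤ s^7 := by positivity
      nlinarith [sq_nonneg s]
    have hfac : 0 ≤ 1 - s/9 := by linarith
    have h1 := mul_le_mul_of_nonneg_left (mul_le_mul_of_nonneg_right hlow hfac) (by norm_num : (0:ℝ) ≤ 0.8579)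
    have h2 : 1 - 7 * (s/9) / 8 ≤ 0.8579 * ((1.1645 + 0.0465 * s) * (1 - s/9)) := by
      nlinarith [mul_nonneg (sub_nonneg.mpr hs0) (sub_nonneg.mpr hs1)]
    refine h2.trans (h1.trans (le_of_eq ?_))
    ring

theorem op8 : OP (1/8) := by
  intro r h0 h1
  refine ⟨r/3, by positivity, by linarith, ?_⟩
  rcases le_total r (1/2) with h | h
  · exact op_small h0 h
  · exact op_big h h1

end Pool.Agent.TAA
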