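import Mathlib

/-!
TorusAA: circle couplings and the pairing of two affine functions of one circle variable.
-/

namespace Pool.Agent.TAA

open Real MeasureTheory intervalIntegral

/-- unit complex number of angle `φ` -/
noncomputable def U (φ : ℝ) : ℂ := Complex.exp (φ * Complex.I)

lemma norm_U (φ : ℝ) : ‖U φ‖ = 1 := Complex.norm_exp_ofReal_mul_I φ

lemma U_add (a b : ℝ) : U (a + b) = U a * U b := by
  unfold U; rw [← Complex.exp_add]; push_cast; ring_nf

lemma conj_U (φ : ℝ) : (starRingEnd ℂ) (U φ) = U (-φ) := by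
  unfold U; rw [← Complex.exp_conj]; simp

lemma U_re (φ : ℝ) : (U φ).re = Real.cos φ := by
  unfold U; rw [Complex.exp_ofReal_mul_I_re]

lemma continuous_U : Continuous U := by
  unfold U; fun_prop

lemma exists_U (z : ℂ) : ∃ a : ℝ, z = ‖z‖ * U a :=
  ⟨Complex.arg z, by unfold U; rw [Complex.norm_mul_exp_arg_mul_I]⟩

lemma U_zero : U 0 = 1 := by unfold U; simp

lemma U_two_pi (x : ℝ) : U (x + 2*π) = U x := by
  unfold U; push_cast; rw [add_mul, Complex.exp_add, Complex.exp_two_pi_mul_I, mul_one]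

/-- A circle coupling in angles: `T` is the map, `W` the absolute value of its derivative; only the
change of variables formula is recorded. -/
structure IsCpl (T W : ℝ → ℝ) : Prop where
  contT : Continuous T
  contW : Continuous W
  nonneg : ∀ x, 0 ≤ W x
  cov : ∀ L : ℝ → ℝ, Continuous L → Function.Periodic L (2*π) →
    ∫ φ in (0:ℝ)..(2*π), L (T φ) * W φ = ∫ φ in (0:ℝ)..(2*π), L φ

/-- the pairing `m00 + m01 conj z + m10 w + m11 w conj z` -/
noncomputable def Pr (m00 m01 m10 m11 z w : ℂ) : ℂ :=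
  m00 + m01 * (starRingEnd ℂ) z + m10 * w + m11 * (w * (starRingEnd ℂ) z)

/-- the two-point inequality (M) with parameter `e = 1 - p` -/
def MC (e : ℝ) : Prop := ∀ m00 m01 m10 m11 : ℂ, ∃ T W : ℝ → ℝ, IsCpl T W ∧
  2 * π * ‖m00 + m11‖ ^ (1 - e) ≤
    ∫ φ in (0:ℝ)..(2*π), ‖Pr m00 m01 m10 m11 (U φ) (U (T φ))‖ ^ (1 - e) * W φ ^ e

/-- pointwise lower bound for the pairing: half angle and real part -/
lemma point_gen (m00 m01 m10 m11 : ℂ) (h : ‖m01‖ + ‖m10‖ ≤ ‖m00‖ + ‖m11‖) :
    ∃ χ φ₀ ρ : ℝ, 0 ≤ ρ ∧ ρ ≤ 1 ∧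
    ∀ η φ : ℝ,
      (‖m00‖ + ‖m11‖) * |Real.cos η + ρ * Real.cos ((φ - φ₀) - η)| ≤
      ‖Pr m00 m01 m10 m11 (U φ) (U (χ + φ - 2 * η))‖ := by
  obtain ⟨a, ha⟩ := exists_U m00
  obtain ⟨b, hb⟩ := exists_U m11
  set t := ‖m00‖ with ht
  set s := ‖m11‖ with hs
  have ht0 : 0 ≤ t := norm_nonneg _
  have hs0 : 0 ≤ s := norm_nonneg _
  rcases (add_nonneg ht0 hs0).eq_or_lt with hR | hR
  · refine ⟨0, 0, 0, le_rfl, zero_le_one, fun η φ => ?_⟩
    rw [← hR, zero_mul]; exact norm_nonneg _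
  -- rotation
  set χ := a - b with hχ
  set u : ℂ := U (-a) * m01 with hu
  set v : ℂ := U (-a) * m10 * U χ with hv
  obtain ⟨γ, hγ⟩ := exists_U ((starRingEnd ℂ) u + v)
  set K := ‖(starRingEnd ℂ) u + v‖ with hK
  have hKle : K ≤ t + s := by
    calc K ≤ ‖(starRingEnd ℂ) u‖ + ‖v‖ := norm_add_le _ _
      _ = ‖m01‖ + ‖m10‖ := by
          rw [RCLike.norm_conj, hu, hv, norm_mul, norm_mul, norm_mul, norm_U, norm_U]; ring
      _ ≤ t + s := h
  refine ⟨χ, -γ, K / (t + s), by positivity, (div_le_one hR).mpr hKle, fun η φ => ?_⟩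
  set θ := φ - -γ with hθ
  set P := Pr m00 m01 m10 m11 (U φ) (U (χ + φ - 2 * η)) with hP
  -- multiply by U(-a) U(η)
  have h1 : ‖P‖ = ‖U (-a) * U η * P‖ := by
    rw [norm_mul, norm_mul, norm_U, norm_U]; ring
  have haa : U (-a) * U a = 1 := by rw [← U_add, neg_add_cancel, U_zero]
  have h2 : U (-a) * U η * P = t * U η + s * U (-η)
      + u * U (-(φ - η)) + v * U (φ - η) := by
    have e1 : U (-a) * U η * m00 = t * U η := by
      rw [ha]; linear_combination (t * U η) * haa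
    have e2 : U (-a) * U η * (m01 * (starRingEnd ℂ) (U φ)) = u * U (-(φ - η)) := by
      rw [conj_U, show -(φ - η) = η + -φ by ring, U_add, hu]; ring
    have e3 : U (-a) * U η * (m10 * U (χ + φ - 2 * η)) = v * U (φ - η) := by
      rw [hv]
      have : U η * U (χ + φ - 2 * η) = U χ * U (φ - η) := by
        rw [← U_add, ← U_add]; congr 1; ring
      linear_combination (U (-a) * m10) * this
    have e4 : U (-a) * U η * (m11 * (U (χ + φ - 2 * η) * (starRingEnd ℂ) (U φ)))
        = s * U (-η) := by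
      rw [hb, conj_U]
      have : U (-a) * U η * (U b * (U (χ + φ - 2 * η) * U (-φ))) = U (-η) := by
        rw [← U_add, ← U_add, ← U_add, ← U_add]; congr 1; rw [hχ]; ring
      linear_combination (s : ℂ) * this
    rw [hP, Pr, mul_add, mul_add, mul_add, e1, e2, e3, e4]; ring
  have h3 : (U (-a) * U η * P).re
      = (t + s) * Real.cos η + K * Real.cos (θ - η) := by
    rw [h2]
    have r1 : ((t : ℂ) * U η).re = t * Real.cos η := by
      rw [Complex.re_ofReal_mul, U_re]
    have r2 : ((s : ℂ) * U (-η)).re = s * Real.cos η := by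
      rw [Complex.re_ofReal_mul, U_re, Real.cos_neg]
    have r3 : (u * U (-(φ - η))).re = ((starRingEnd ℂ) u * U (φ - η)).re := by
      rw [← conj_U, ← Complex.conj_re ((starRingEnd ℂ) u * U (φ - η)), map_mul, Complex.conj_conj]
    have r4 : (((starRingEnd ℂ) u + v) * U (φ - η)).re = K * Real.cos (θ - η) := by
      rw [hγ, mul_assoc, ← U_add, Complex.re_ofReal_mul, U_re]
      congr 2; rw [hθ]; ring
    rw [Complex.add_re, Complex.add_re, Complex.add_re, r1, r2, r3]
    rw [add_mul, Complex.add_re] at r4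
    linarith
  rw [h1]
  refine le_trans ?_ (Complex.abs_re_le_norm _)
  rw [h3]
  have hpos : 0 ≤ t + s := hR.le
  rw [← abs_of_nonneg hpos, ← abs_mul, abs_of_nonneg hpos]
  apply le_of_eq
  congr 1
  field_simp

end Pool.Agent.TAA
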