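import Pool.Agent.Lib_helper84.TAA.Star

/-!
TorusAA: means of the imaginary part.  If every monomial of `h` contains the variable `j`, then
the mean of `|h|` over the torus is `pi/2` times the mean of `|Im h|`.
-/

namespace Pool.Agent.TAA

open Real MeasureTheory intervalIntegral

variable {ι : Type*} [DecidableEq ι]

/-- iterated circle mean of `|Im|` -/
noncomputable def NI : List ι → (Finset ι → ℂ) → ℝ
  | [], c => |(c ∅).im|
  | i :: l, c => (2*π)⁻¹ * ∫ φ in (0:ℝ)..(2*π), NI l (Rs i (U φ) c)

lemma N1_cons (i : ι) (l : List ι) (c : Finset ι → ℂ) :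
    N1 (i :: l) c = (2*π)⁻¹ * ∫ φ in (0:ℝ)..(2*π), N1 l (Rs i (U φ) c) := rfl

lemma NI_cons (i : ι) (l : List ι) (c : Finset ι → ℂ) :
    NI (i :: l) c = (2*π)⁻¹ * ∫ φ in (0:ℝ)..(2*π), NI l (Rs i (U φ) c) := rfl

lemma continuous_NI (l : List ι) : Continuous (NI l) := by
  induction l with
  | nil => exact (Complex.continuous_im.comp (continuous_apply _)).abs
  | cons i l ih =>
    have h1 : Continuous (Function.uncurry (fun (c : Finset ι → ℂ) (φ : ℝ) =>
        NI l (Rs i (U φ) c))) := ih.comp (continuous_Rs i)
    have h2 := intervalIntegral.continuous_parametric_intervalIntegral_of_continuous' h1 0 (2*π)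
      (μ := volume)
    exact continuous_const.mul h2

lemma continuous_NI_Rs (l : List ι) (i : ι) (c : Finset ι → ℂ) :
    Continuous (fun φ : ℝ => NI l (Rs i (U φ) c)) :=
  (continuous_NI l).comp ((continuous_Rs i).comp (continuous_const.prodMk continuous_id))

lemma Rs_smul (i : ι) (u w : ℂ) (c : Finset ι → ℂ) :
    Rs i u (fun S => w * c S) = fun S => w * Rs i u c S := by
  unfold Rs; ext S; ring

lemma N1_smul (l : List ι) (w : ℂ) (c : Finset ι → ℂ) :
    N1 l (fun S => w * c S) = ‖w‖ * N1 l c := by
  induction l generalizing c with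
  | nil => simp [N1]
  | cons i l ih =>
    rw [N1_cons, N1_cons]
    simp_rw [Rs_smul, ih]
    rw [intervalIntegral.integral_const_mul]; ring

lemma N1_congr (l : List ι) : ∀ (c c' : Finset ι → ℂ),
    (∀ S, S ⊆ l.toFinset → c S = c' S) → N1 l c = N1 l c' := by
  induction l with
  | nil => intro c c' h; simp [N1, h ∅ (by simp)]
  | cons i l ih =>
    intro c c' h
    have hto : (i :: l).toFinset = insert i l.toFinset := by simp
    rw [hto] at h
    rw [N1_cons, N1_cons]
    congr 1
    apply intervalIntegral.integral_congr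
    intro φ _
    apply ih
    intro S hS
    unfold Rs
    rw [h S (hS.trans (Finset.subset_insert _ _)), h (insert i S) (Finset.insert_subset_insert _ hS)]

lemma NI_congr (l : List ι) : ∀ (c c' : Finset ι → ℂ),
    (∀ S, S ⊆ l.toFinset → c S = c' S) → NI l c = NI l c' := by
  induction l with
  | nil => intro c c' h; simp [NI, h ∅ (by simp)]
  | cons i l ih =>
    intro c c' h
    have hto : (i :: l).toFinset = insert i l.toFinset := by simp
    rw [hto] at h
    rw [NI_cons, NI_cons]
    congr 1
    apply intervalIntegral.integral_congr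
    intro φ _
    apply ih
    intro S hS
    unfold Rs
    rw [h S (hS.trans (Finset.subset_insert _ _)), h (insert i S) (Finset.insert_subset_insert _ hS)]

lemma integral_abs_sin : ∫ φ in (0:ℝ)..(2*π), |Real.sin φ| = 4 := by
  have h1 : ∫ φ in (0:ℝ)..π, |Real.sin φ| = 2 := by
    rw [← integral_sin_pi_aux]
    apply intervalIntegral.integral_congr
    intro x hx
    rw [Set.uIcc_of_le Real.pi_pos.le] at hx
    exact abs_of_nonneg (Real.sin_nonneg_of_mem_Icc hx)
  have hp : Function.Periodic (fun φ => |Real.sin φ|) π := by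
    intro x; simp
  have h2 : ∫ φ in π..(2*π), |Real.sin φ| = 2 := by
    have := hp.intervalIntegral_add_eq π 0
    rw [show π + π = 2*π by ring, zero_add] at this
    rw [this, h1]
  have hc : Continuous (fun φ : ℝ => |Real.sin φ|) := by fun_prop
  rw [← intervalIntegral.integral_add_adjacent_intervals (hc.intervalIntegrable 0 π)
    (hc.intervalIntegrable π (2*π)), h1, h2]
  norm_num
where
  integral_sin_pi_aux : ∫ φ in (0:ℝ)..π, Real.sin φ = 2 := by
    rw [integral_sin]; simp; norm_num

lemma integral_abs_im (c : ℂ) : ∫ φ in (0:ℝ)..(2*π), |(U φ * c).im| = 4 * ‖c‖ := by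
  obtain ⟨a, ha⟩ := exists_U c
  have h1 : ∀ φ : ℝ, |(U φ * c).im| = ‖c‖ * |Real.sin (φ + a)| := by
    intro φ
    have h2 : U φ * c = (‖c‖ : ℂ) * U (φ + a) := by
      rw [U_add]; nth_rewrite 1 [ha]; ring
    rw [h2, Complex.im_ofReal_mul, abs_mul, abs_of_nonneg (norm_nonneg c)]
    unfold U
    rw [Complex.exp_ofReal_mul_I_im]
  simp_rw [h1]
  rw [intervalIntegral.integral_const_mul]
  have hp : Function.Periodic (fun φ => |Real.sin φ|) (2*π) := by
    intro x; simp
  have h3 : ∫ φ in (0:ℝ)..(2*π), |Real.sin (φ + a)| = 4 := by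
    rw [intervalIntegral.integral_comp_add_right (fun φ => |Real.sin φ|) a]
    have := hp.intervalIntegral_add_eq (0 + a) 0
    rw [zero_add, zero_add] at this
    rw [zero_add, show 2 * π + a = a + 2 * π by ring, this, integral_abs_sin]
  rw [h3]; ring

lemma rot_mean (l : List ι) : ∀ (c : Finset ι → ℂ),
    ∫ φ in (0:ℝ)..(2*π), NI l (fun S => U φ * c S) = 4 * N1 l c := by
  induction l with
  | nil => intro c; exact integral_abs_im (c ∅)
  | cons i l ih =>
    intro c
    have h1 : ∀ φ : ℝ, NI (i :: l) (fun S => U φ * c S) =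
        (2*π)⁻¹ * ∫ θ in (0:ℝ)..(2*π), NI l (fun S => U φ * Rs i (U θ) c S) := by
      intro φ
      change (2*π)⁻¹ * ∫ θ in (0:ℝ)..(2*π), NI l (Rs i (U θ) (fun S => U φ * c S)) = _
      simp_rw [Rs_smul]
    simp_rw [h1]
    rw [intervalIntegral.integral_const_mul]
    have hcont : Continuous (Function.uncurry (fun φ θ : ℝ =>
        NI l (fun S => U φ * Rs i (U θ) c S))) := by
      apply (continuous_NI l).comp
      refine continuous_pi (fun S => ?_)
      have hR : Continuous (fun p : ℝ × ℝ => Rs i (U p.2) c S) :=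
        (continuous_apply S).comp ((continuous_Rs i).comp (continuous_const.prodMk continuous_snd))
      exact (continuous_U.comp continuous_fst).mul hR
    rw [intervalIntegral_intervalIntegral_swap]
    · simp_rw [ih]
      rw [intervalIntegral.integral_const_mul, N1_cons]; ring
    · have hcomp : IsCompact (Set.uIcc (0:ℝ) (2*π) ×ˢ Set.uIcc (0:ℝ) (2*π)) :=
        isCompact_uIcc.prod isCompact_uIcc
      exact (hcont.continuousOn.integrableOn_compact hcomp).mono_set
        (Set.prod_mono Set.uIoc_subset_uIcc Set.uIoc_subset_uIcc)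

lemma N1_eq_NI (j : ι) (l : List ι) (hl : l.Nodup) (hj : j ∈ l) : ∀ h : Finset ι → ℂ,
    (∀ S, j ∉ S → h S = 0) → N1 l h = π / 2 * NI l h := by
  induction l with
  | nil => simp at hj
  | cons i l ih =>
    intro h hh
    have hil : i ∉ l.toFinset := by
      rw [List.mem_toFinset]; exact (List.nodup_cons.mp hl).1
    have hl' := (List.nodup_cons.mp hl).2
    by_cases hij : i = j
    · subst hij
      set g : Finset ι → ℂ := fun S => h (insert i S) with hg
      have key : ∀ (φ : ℝ) (S : Finset ι), S ⊆ l.toFinset → Rs i (U φ) h S = U φ * g S := by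
        intro φ S hS
        have hiS : i ∉ S := fun h => hil (hS h)
        unfold Rs
        rw [hh S hiS, zero_add]
      have e1 : N1 (i :: l) h = N1 l g := by
        rw [N1_cons]
        have : ∀ φ : ℝ, N1 l (Rs i (U φ) h) = N1 l g := by
          intro φ
          rw [N1_congr l _ (fun S => U φ * g S) (key φ), N1_smul, norm_U, one_mul]
        simp_rw [this]
        rw [intervalIntegral.integral_const, smul_eq_mul, sub_zero, ← mul_assoc,
          inv_mul_cancel₀ (by positivity), one_mul]
      have e2 : NI (i :: l) h = (2*π)⁻¹ * (4 * N1 l g) := by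
        rw [NI_cons]
        have : ∀ φ : ℝ, NI l (Rs i (U φ) h) = NI l (fun S => U φ * g S) := by
          intro φ
          exact NI_congr l _ _ (key φ)
        simp_rw [this]
        rw [rot_mean]
      rw [e1, e2]
      have := Real.pi_pos
      field_simp; ring
    · have hjl : j ∈ l := by
        rcases List.mem_cons.mp hj with h | h
        · exact absurd h.symm hij
        · exact h
      rw [N1_cons, NI_cons]
      have : ∀ φ : ℝ, N1 l (Rs i (U φ) h) = π / 2 * NI l (Rs i (U φ) h) := by
        intro φ
        apply ih hl' hjl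
        intro S hS
        unfold Rs
        have h2 : j ∉ insert i S := by
          rw [Finset.mem_insert]; push Not
          exact ⟨fun h => hij h.symm, hS⟩
        rw [hh S hS, hh _ h2]; simp
      simp_rw [this]
      rw [intervalIntegral.integral_const_mul]; ring

/-- domination for the imaginary part -/
lemma domI {κ : Type*} (J : Finset κ) (l : List ι) (hl : l.Nodup) :
    ∀ (C : κ → Finset ι → ℂ) (K : ℝ),
    (∀ z : ι → ℂ, (∀ i, ‖z i‖ = 1) → ∑ j ∈ J, |(pv l.toFinset (C j) z).im| ≤ K) →
    ∑ j ∈ J, NI l (C j) ≤ K := by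
  induction l with
  | nil =>
    intro C K h
    have := h (fun _ => 1) (fun _ => by simp)
    simpa [pv, NI] using this
  | cons i l ih =>
    intro C K h
    have hil : i ∉ l.toFinset := by
      rw [List.mem_toFinset]; exact (List.nodup_cons.mp hl).1
    have hl' := (List.nodup_cons.mp hl).2
    have hto : (i :: l).toFinset = insert i l.toFinset := by simp
    rw [hto] at h
    have hpt : ∀ φ : ℝ, ∑ j ∈ J, NI l (Rs i (U φ) (C j)) ≤ K := by
      intro φ
      apply ih hl' (fun j => Rs i (U φ) (C j)) K
      intro z hz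
      have := h (Function.update z i (U φ)) (by
        intro j
        rcases eq_or_ne j i with h | h
        · rw [h, Function.update_self]; exact norm_U _
        · rw [Function.update_of_ne h]; exact hz j)
      simpa only [← pv_update hil] using this
    have hsum : ∑ j ∈ J, NI (i :: l) (C j) =
        (2*π)⁻¹ * ∫ φ in (0:ℝ)..(2*π), ∑ j ∈ J, NI l (Rs i (U φ) (C j)) := by
      rw [intervalIntegral.integral_finsetSum
        (fun j _ => (continuous_NI_Rs l i (C j)).intervalIntegrable _ _), Finset.mul_sum]
      rfl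
    rw [hsum]
    have h1 : ∫ φ in (0:ℝ)..(2*π), ∑ j ∈ J, NI l (Rs i (U φ) (C j)) ≤
        ∫ φ in (0:ℝ)..(2*π), K := by
      apply intervalIntegral.integral_mono_on (by positivity)
      · exact (continuous_finsetSum _ (fun j _ => continuous_NI_Rs l i (C j))).intervalIntegrable _ _
      · exact continuous_const.intervalIntegrable _ _
      · intro φ _; exact hpt φ
    rw [intervalIntegral.integral_const, smul_eq_mul] at h1
    calc (2*π)⁻¹ * ∫ φ in (0:ℝ)..(2*π), ∑ j ∈ J, NI l (Rs i (U φ) (C j))
        ≤ (2*π)⁻¹ * ((2 * π - 0) * K) := by gcongr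
      _ = K := by rw [sub_zero, ← mul_assoc, inv_mul_cancel₀ (by positivity), one_mul]

end Pool.Agent.TAA
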