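import Pool.Agent.Lib_helper84.TAA.ImMean

/-!
TorusAA: the influence inequality, from the Bernstein bound for imaginary parts.
-/

namespace Pool.Agent.TAA

open Real MeasureTheory intervalIntegral

variable {I : Type*} [Fintype I] [DecidableEq I]

/-- part of the polynomial containing the variable `j` -/
def hj (c : Finset I → ℂ) (j : I) : Finset I → ℂ := fun S => if j ∈ S then c S else 0

lemma pv_univ (c : Finset I → ℂ) (z : I → ℂ) :
    pv Finset.univ c z = ∑ S, c S * ∏ i ∈ S, z i := by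
  unfold pv; rw [Finset.powerset_univ]

lemma pv_hj (c : Finset I → ℂ) (j : I) (z : I → ℂ) :
    pv Finset.univ (hj c j) z = ∑ S with j ∈ S, c S * ∏ i ∈ S, z i := by
  rw [pv_univ, Finset.sum_filter]
  apply Finset.sum_congr rfl
  intro S _
  unfold hj; split_ifs <;> simp

lemma ip_hj (c : Finset I → ℂ) (j : I) :
    ‖ip Finset.univ (hj c j) (hj c j)‖ = ∑ S with j ∈ S, ‖c S‖ ^ 2 := by
  have h1 : ip Finset.univ (hj c j) (hj c j) = ((∑ S with j ∈ S, ‖c S‖ ^ 2 : ℝ) : ℂ) := by
    unfold ip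
    rw [Finset.powerset_univ, Finset.sum_filter, Complex.ofReal_sum]
    apply Finset.sum_congr rfl
    intro S _
    unfold hj; split_ifs
    · rw [Complex.mul_conj']; push_cast; rfl
    · simp
  rw [h1, Complex.norm_real, Real.norm_eq_abs]
  apply abs_of_nonneg
  positivity

/-- splitting off the variable `j` -/
lemma eval_rot (c : Finset I → ℂ) (j : I) (z : I → ℂ) (ζ : ℂ) :
    ∑ S, c S * ∏ i ∈ S, (Function.update z j (ζ * z j)) i =
      (∑ S with j ∉ S, c S * ∏ i ∈ S, z i) + ζ * ∑ S with j ∈ S, c S * ∏ i ∈ S, z i := by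
  rw [← Finset.sum_filter_add_sum_filter_not Finset.univ (fun S => j ∈ S), add_comm]
  congr 1
  · apply Finset.sum_congr rfl
    intro S hS
    rw [Finset.mem_filter] at hS
    congr 1
    apply Finset.prod_congr rfl
    intro i hi
    rw [Function.update_of_ne]
    rintro rfl; exact hS.2 hi
  · rw [Finset.mul_sum]
    apply Finset.sum_congr rfl
    intro S hS
    rw [Finset.mem_filter] at hS
    rw [← Finset.mul_prod_erase S _ hS.2, ← Finset.mul_prod_erase S z hS.2, Function.update_self]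
    have : ∏ x ∈ S.erase j, Function.update z j (ζ * z j) x = ∏ x ∈ S.erase j, z x := by
      apply Finset.prod_congr rfl
      intro i hi
      rw [Function.update_of_ne (Finset.ne_of_mem_erase hi)]
    rw [this]; ring

lemma part_le_one (c : Finset I → ℂ)
    (hbd : ∀ z : I → ℂ, (∀ i, ‖z i‖ = 1) → |(∑ S, c S * ∏ i ∈ S, z i).re| ≤ 1)
    (j : I) (z : I → ℂ) (hz : ∀ i, ‖z i‖ = 1) :
    ‖∑ S with j ∈ S, c S * ∏ i ∈ S, z i‖ ≤ 1 := by
  set W := ∑ S with j ∈ S, c S * ∏ i ∈ S, z i with hW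
  set A := ∑ S with j ∉ S, c S * ∏ i ∈ S, z i with hA
  obtain ⟨a, ha⟩ := exists_U W
  have key : ∀ ζ : ℂ, ‖ζ‖ = 1 → |(A + ζ * W).re| ≤ 1 := by
    intro ζ hζ
    have := hbd (Function.update z j (ζ * z j)) (by
      intro i
      rcases eq_or_ne i j with h | h
      · rw [h, Function.update_self, norm_mul, hζ, hz, one_mul]
      · rw [Function.update_of_ne h]; exact hz i)
    rwa [eval_rot] at this
  have h1 := key (U (-a)) (norm_U _)
  have h2 := key (-U (-a)) (by rw [norm_neg]; exact norm_U _)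
  have h3 : U (-a) * W = (‖W‖ : ℂ) := by
    have haa : U (-a) * U a = 1 := by rw [← U_add, neg_add_cancel, U_zero]
    nth_rewrite 1 [ha]
    linear_combination (‖W‖ : ℂ) * haa
  rw [h3] at h1
  rw [neg_mul, h3] at h2
  rw [Complex.add_re, Complex.ofReal_re] at h1
  rw [Complex.add_re, Complex.neg_re, Complex.ofReal_re] at h2
  have h4 := (abs_le.mp h1).2
  have h5 := (abs_le.mp h2).1
  linarith

/-- The power sum of the influences, given (M) and the Bernstein bound. -/
theorem sum_of {e : ℝ} (he0 : 0 < e) (he1 : 2 * e < 1) (hM : MC e)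
    (c : Finset I → ℂ) (J : Finset I) (K : ℝ)
    (hbd : ∀ z : I → ℂ, (∀ i, ‖z i‖ = 1) → |(∑ S, c S * ∏ i ∈ S, z i).re| ≤ 1)
    (hbern : ∀ z : I → ℂ, (∀ i, ‖z i‖ = 1) →
      ∑ j ∈ J, |(∑ S with j ∈ S, c S * ∏ i ∈ S, z i).im| ≤ K) :
    ∑ j ∈ J, (∑ S with j ∈ S, ‖c S‖ ^ 2) ^ (1 - e) ≤ π / 2 * K := by
  set l := (Finset.univ : Finset I).toList with hl
  have hnd : l.Nodup := Finset.nodup_toList _
  have htf : l.toFinset = Finset.univ := Finset.toList_toFinset _
  -- (S)
  have hS : ∀ j, (∑ S with j ∈ S, ‖c S‖ ^ 2) ^ (1 - e) ≤ N1 l (hj c j) := by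
    intro j
    have h1 := star he0 he1 hM l hnd (hj c j) (hj c j) 1 zero_le_one (by
      intro z hz
      rw [htf, pv_hj]
      exact part_le_one c hbd j z hz)
    rw [htf, ip_hj, Real.one_rpow, mul_one,
      ← Real.rpow_add_of_nonneg (N1_nonneg _ _) (by linarith) he0.le] at h1
    simpa using h1
  refine (Finset.sum_le_sum (fun j _ => hS j)).trans ?_
  have h1 : ∀ j ∈ J, N1 l (hj c j) = π / 2 * NI l (hj c j) := by
    intro j _
    apply N1_eq_NI j l hnd (by rw [hl, Finset.mem_toList]; exact Finset.mem_univ _)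
    intro S hS; unfold hj; rw [if_neg hS]
  rw [Finset.sum_congr rfl h1, ← Finset.mul_sum]
  have h2 := domI J l hnd (hj c) K (by
    intro z hz
    rw [htf]
    simp_rw [pv_hj]
    exact hbern z hz)
  have := Real.pi_pos
  gcongr

/-- The influence inequality, given the power sum. -/
theorem max_of {e : ℝ} (he0 : 0 < e) (he1 : 2 * e < 1)
    (c : Finset I → ℂ) (J : Finset I) (hJ : J.Nonempty) (K : ℝ) (hK : 0 ≤ K)
    (hsum : ∑ j ∈ J, (∑ S with j ∈ S, ‖c S‖ ^ 2) ^ (1 - e) ≤ π / 2 * K) :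
    ∃ j ∈ J, ((∑ S with (S ∩ J).Nonempty, ‖c S‖ ^ 2) / (π / 2 * K)) ^ (1 / e) ≤
      ∑ S with j ∈ S, ‖c S‖ ^ 2 := by
  set Inf : I → ℝ := fun j => ∑ S with j ∈ S, ‖c S‖ ^ 2 with hInf
  have hInf0 : ∀ j, 0 ≤ Inf j := fun j => by simp only [hInf]; positivity
  obtain ⟨j, hjJ, hmax⟩ := Finset.exists_max_image J Inf hJ
  refine ⟨j, hjJ, ?_⟩
  change _ ≤ Inf j
  set V := ∑ S with (S ∩ J).Nonempty, ‖c S‖ ^ 2 with hV
  have hV0 : 0 ≤ V := by rw [hV]; positivity
  have hVle : V ≤ ∑ j ∈ J, Inf j := by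
    have h1 : ∑ j ∈ J, Inf j = ∑ S : Finset I, ((S ∩ J).card : ℝ) * ‖c S‖ ^ 2 := by
      simp only [hInf, Finset.sum_filter]
      rw [Finset.sum_comm]
      apply Finset.sum_congr rfl
      intro S _
      rw [← Finset.sum_filter, Finset.sum_const, nsmul_eq_mul]
      congr 3
      ext i; simp [and_comm]
    rw [h1, hV, Finset.sum_filter]
    apply Finset.sum_le_sum
    intro S _
    split_ifs with h
    · have : (1:ℝ) ≤ ((S ∩ J).card : ℝ) := by exact_mod_cast h.card_pos
      nlinarith [sq_nonneg ‖c S‖]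
    · positivity
  have hmain : V ≤ Inf j ^ e * (π / 2 * K) := by
    calc V ≤ ∑ i ∈ J, Inf i := hVle
      _ = ∑ i ∈ J, Inf i ^ e * Inf i ^ (1 - e) := by
          apply Finset.sum_congr rfl
          intro i _
          rw [← Real.rpow_add_of_nonneg (hInf0 i) he0.le (by linarith)]
          simp
      _ ≤ ∑ i ∈ J, Inf j ^ e * Inf i ^ (1 - e) := by
          apply Finset.sum_le_sum
          intro i hi
          have h1 : Inf i ^ e ≤ Inf j ^ e := Real.rpow_le_rpow (hInf0 i) (hmax i hi) he0.le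
          have h3 : 0 ≤ Inf i ^ (1 - e) := Real.rpow_nonneg (hInf0 i) _
          gcongr
      _ = Inf j ^ e * ∑ i ∈ J, Inf i ^ (1 - e) := by rw [Finset.mul_sum]
      _ ≤ _ := by
          have h4 : 0 ≤ Inf j ^ e := Real.rpow_nonneg (hInf0 j) _
          gcongr
  rcases hK.eq_or_lt with h | h
  · rw [← h, mul_zero, div_zero, Real.zero_rpow (by positivity)]
    exact hInf0 j
  · have hpos : 0 < π / 2 * K := by positivity
    have h1 : V / (π / 2 * K) ≤ Inf j ^ e := by
      rw [div_le_iff₀ hpos]; exact hmain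
    calc (V / (π / 2 * K)) ^ (1 / e) ≤ (Inf j ^ e) ^ (1 / e) := by
          apply Real.rpow_le_rpow (by positivity) h1 (by positivity)
      _ = Inf j := by
          rw [← Real.rpow_mul (hInf0 j), mul_one_div_cancel he0.ne', Real.rpow_one]

end Pool.Agent.TAA
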