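import Pool.Agent.Lib_helper84.TAA.Base

/-!
TorusAA: Moebius couplings.
-/

namespace Pool.Agent.TAA

open Real MeasureTheory intervalIntegral

/-- `|1 + a e^{iφ}|^2` -/
noncomputable def wf (a φ : ℝ) : ℝ := 1 + a^2 + 2 * a * Real.cos φ

/-- `arg (1 + a e^{iφ})` -/
noncomputable def ηf (a φ : ℝ) : ℝ := Real.arctan (a * Real.sin φ / (1 + a * Real.cos φ))

/-- the angle map of the Moebius coupling -/
noncomputable def Tf (a χ φ₀ φ : ℝ) : ℝ := χ + φ - 2 * ηf a (φ - φ₀)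

/-- its derivative -/
noncomputable def Wf (a φ₀ φ : ℝ) : ℝ := (1 - a^2) / wf a (φ - φ₀)

lemma one_add_pos {a : ℝ} (h0 : 0 ≤ a) (h1 : a < 1) (φ : ℝ) : 0 < 1 + a * Real.cos φ := by
  have := Real.neg_one_le_cos φ
  nlinarith

lemma wf_pos {a : ℝ} (h0 : 0 ≤ a) (h1 : a < 1) (φ : ℝ) : 0 < wf a φ := by
  unfold wf
  have := Real.neg_one_le_cos φ
  nlinarith

lemma wf_eq (a φ : ℝ) : wf a φ = (1 + a * Real.cos φ)^2 + (a * Real.sin φ)^2 := by
  unfold wf
  have := Real.sin_sq_add_cos_sq φ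
  linear_combination (-a^2) * this

lemma continuous_wf (a : ℝ) : Continuous (wf a) := by unfold wf; fun_prop

lemma continuous_ηf {a : ℝ} (h0 : 0 ≤ a) (h1 : a < 1) : Continuous (ηf a) := by
  unfold ηf
  refine Real.continuous_arctan.comp (Continuous.div (by fun_prop) (by fun_prop) ?_)
  intro x; exact (one_add_pos h0 h1 x).ne'

lemma sqrt_aux {a : ℝ} (h0 : 0 ≤ a) (h1 : a < 1) (φ : ℝ) :
    √(1 + (a * Real.sin φ / (1 + a * Real.cos φ))^2) = √(wf a φ) / (1 + a * Real.cos φ) := by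
  have hp := one_add_pos h0 h1 φ
  have : 1 + (a * Real.sin φ / (1 + a * Real.cos φ))^2 = wf a φ / (1 + a * Real.cos φ)^2 := by
    rw [wf_eq]; field_simp
  rw [this, Real.sqrt_div (wf_pos h0 h1 φ).le, Real.sqrt_sq hp.le]

lemma cos_ηf {a : ℝ} (h0 : 0 ≤ a) (h1 : a < 1) (φ : ℝ) :
    Real.cos (ηf a φ) = (1 + a * Real.cos φ) / √(wf a φ) := by
  unfold ηf
  have hp := one_add_pos h0 h1 φ
  rw [Real.cos_arctan, sqrt_aux h0 h1]
  rw [one_div_div]

lemma sin_ηf {a : ℝ} (h0 : 0 ≤ a) (h1 : a < 1) (φ : ℝ) :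
    Real.sin (ηf a φ) = (a * Real.sin φ) / √(wf a φ) := by
  unfold ηf
  have hp := one_add_pos h0 h1 φ
  have hw := Real.sqrt_pos.mpr (wf_pos h0 h1 φ)
  rw [Real.sin_arctan, sqrt_aux h0 h1]
  field_simp

/-- the paired real part -/
lemma Y_eq {a : ℝ} (h0 : 0 ≤ a) (h1 : a < 1) (ρ φ : ℝ) :
    Real.cos (ηf a φ) + ρ * Real.cos (φ - ηf a φ) =
      (1 + a * ρ + (a + ρ) * Real.cos φ) / √(wf a φ) := by
  rw [Real.cos_sub, cos_ηf h0 h1, sin_ηf h0 h1]
  have hw := Real.sqrt_pos.mpr (wf_pos h0 h1 φ)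
  field_simp
  have := Real.sin_sq_add_cos_sq φ
  linear_combination (ρ * a) * this

lemma hasDerivAt_ηf {a : ℝ} (h0 : 0 ≤ a) (h1 : a < 1) (φ : ℝ) :
    HasDerivAt (ηf a) ((a * Real.cos φ + a^2) / wf a φ) φ := by
  have hp := one_add_pos h0 h1 φ
  have hw := wf_pos h0 h1 φ
  have d1 : HasDerivAt (fun x : ℝ => a * Real.sin x) (a * Real.cos φ) φ :=
    (Real.hasDerivAt_sin φ).const_mul a
  have d2 : HasDerivAt (fun x : ℝ => 1 + a * Real.cos x) (a * (-Real.sin φ)) φ :=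
    ((Real.hasDerivAt_cos φ).const_mul a).const_add 1
  have d3 := d1.fun_div d2 hp.ne'
  have d4 := d3.arctan
  have hval : 1 / (1 + (a * Real.sin φ / (1 + a * Real.cos φ))^2) *
      ((a * Real.cos φ * (1 + a * Real.cos φ) - a * Real.sin φ * (a * -Real.sin φ)) /
        (1 + a * Real.cos φ)^2) = (a * Real.cos φ + a^2) / wf a φ := by
    have hq : 0 < (1 + a * Real.cos φ)^2 + (a * Real.sin φ)^2 := by rw [← wf_eq]; exact hw
    rw [wf_eq]
    have hsc := Real.sin_sq_add_cos_sq φ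
    have e1 : 1 + (a * Real.sin φ / (1 + a * Real.cos φ))^2 =
        ((1 + a * Real.cos φ)^2 + (a * Real.sin φ)^2) / (1 + a * Real.cos φ)^2 := by
      field_simp
    rw [e1, one_div_div, div_mul_div_comm, div_eq_div_iff (by positivity) hq.ne']
    linear_combination (a^2 * (1 + a * Real.cos φ)^2 * ((1 + a * Real.cos φ)^2 + (a * Real.sin φ)^2)) * hsc
  rw [hval] at d4
  exact d4

lemma isCpl_moeb {a : ℝ} (h0 : 0 ≤ a) (h1 : a < 1) (χ φ₀ : ℝ) : IsCpl (Tf a χ φ₀) (Wf a φ₀) := by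
  have hcη : Continuous (fun φ : ℝ => ηf a (φ - φ₀)) :=
    (continuous_ηf h0 h1).comp (by fun_prop)
  have hcT : Continuous (Tf a χ φ₀) := by
    unfold Tf
    exact (by fun_prop : Continuous (fun φ : ℝ => χ + φ)).sub (continuous_const.mul hcη)
  have hcW : Continuous (Wf a φ₀) := by
    unfold Wf
    exact continuous_const.div ((continuous_wf a).comp (by fun_prop))
      (fun x => (wf_pos h0 h1 _).ne')
  refine ⟨hcT, hcW, ?_, ?_⟩
  · intro x
    unfold Wf
    have := wf_pos h0 h1 (x - φ₀)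
    have : 0 ≤ 1 - a^2 := by nlinarith
    positivity
  · intro L hL hp
    have hd : ∀ x ∈ Set.uIcc (0:ℝ) (2*π), HasDerivAt (Tf a χ φ₀) (Wf a φ₀ x) x := by
      intro x _
      have e1 : HasDerivAt (fun φ : ℝ => ηf a (φ - φ₀))
          ((a * Real.cos (x - φ₀) + a^2) / wf a (x - φ₀)) x :=
        (hasDerivAt_ηf h0 h1 (x - φ₀)).comp_sub_const x φ₀
      have e2 : HasDerivAt (fun φ : ℝ => χ + φ - 2 * ηf a (φ - φ₀))
          (1 - 2 * ((a * Real.cos (x - φ₀) + a^2) / wf a (x - φ₀))) x :=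
        ((hasDerivAt_id' x).const_add χ).fun_sub (e1.const_mul 2)
      have hw := wf_pos h0 h1 (x - φ₀)
      have e3 : 1 - 2 * ((a * Real.cos (x - φ₀) + a^2) / wf a (x - φ₀)) = Wf a φ₀ x := by
        unfold Wf
        field_simp
        unfold wf; ring
      rw [e3] at e2
      exact e2
    have h := intervalIntegral.integral_comp_mul_deriv (a := 0) (b := 2*π) (f := Tf a χ φ₀)
      (f' := Wf a φ₀) (g := L) hd hcW.continuousOn hL
    simp only [Function.comp] at h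
    rw [h]
    have hT : Tf a χ φ₀ (2*π) = Tf a χ φ₀ 0 + 2*π := by
      unfold Tf ηf
      rw [show 2 * π - φ₀ = (0 - φ₀) + 2*π by ring, Real.sin_add_two_pi, Real.cos_add_two_pi]; ring
    rw [hT, hp.intervalIntegral_add_eq (Tf a χ φ₀ 0) 0, zero_add]

/-- reflection of a coupling -/
lemma isCpl_reflect {T W : ℝ → ℝ} (h : IsCpl T W) (hT : ∀ x, T (x + 2*π) = T x + 2*π)
    (hW : Function.Periodic W (2*π)) : IsCpl (fun φ => T (-φ)) (fun φ => W (-φ)) := by
  refine ⟨h.contT.comp continuous_neg, h.contW.comp continuous_neg, fun x => h.nonneg _, ?_⟩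
  intro L hL hp
  have hF : Function.Periodic (fun φ => L (T φ) * W φ) (2*π) := by
    intro x
    simp only
    rw [hT, hp, hW]
  have e1 : ∫ φ in (0:ℝ)..(2*π), L (T (-φ)) * W (-φ) =
      ∫ φ in (-(2*π))..(-0), L (T φ) * W φ :=
    intervalIntegral.integral_comp_neg (fun φ => L (T φ) * W φ)
  rw [e1]
  have e2 := hF.intervalIntegral_add_eq (-(2*π)) 0
  rw [neg_add_cancel, zero_add] at e2
  rw [neg_zero, e2]
  exact h.cov L hL hp

/-- The one-parameter inequality. -/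
def OP (e : ℝ) : Prop := ∀ ρ : ℝ, 0 ≤ ρ → ρ ≤ 1 → ∃ a : ℝ, 0 ≤ a ∧ a < 1 ∧
  2 * π ≤ ∫ φ in (0:ℝ)..(2*π),
    |(1 + a * ρ + (a + ρ) * Real.cos φ) / √(wf a φ)| ^ (1 - e) * ((1 - a^2) / wf a φ) ^ e

lemma continuous_OPint {e : ℝ} (he0 : 0 < e) (he1 : e < 1) {a : ℝ} (h0 : 0 ≤ a) (h1 : a < 1)
    (ρ : ℝ) : Continuous (fun φ : ℝ =>
    |(1 + a * ρ + (a + ρ) * Real.cos φ) / √(wf a φ)| ^ (1 - e) * ((1 - a^2) / wf a φ) ^ e) := by
  have hw : Continuous (wf a) := continuous_wf a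
  refine Continuous.mul ?_ ?_
  · refine Continuous.rpow_const ?_ (fun _ => Or.inr (by linarith))
    refine (Continuous.div (by fun_prop) (by fun_prop) ?_).abs
    intro x; exact (Real.sqrt_pos.mpr (wf_pos h0 h1 x)).ne'
  · refine Continuous.rpow_const ?_ (fun _ => Or.inr he0.le)
    exact continuous_const.div hw (fun x => (wf_pos h0 h1 x).ne')

lemma continuous_Pr_rpow {e : ℝ} (he0 : 0 < e) (he1 : e < 1) {T W : ℝ → ℝ} (hT : Continuous T)
    (hW : Continuous W) (m00 m01 m10 m11 : ℂ) :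
    Continuous (fun φ => ‖Pr m00 m01 m10 m11 (U φ) (U (T φ))‖ ^ (1 - e) * W φ ^ e) := by
  have hUc : Continuous (fun φ => U (T φ)) := continuous_U.comp hT
  have hcU : Continuous (fun φ => (starRingEnd ℂ) (U φ)) :=
    Complex.continuous_conj.comp continuous_U
  refine Continuous.mul ?_ (hW.rpow_const (fun _ => Or.inr he0.le))
  refine Continuous.rpow_const ?_ (fun _ => Or.inr (by linarith))
  unfold Pr
  exact ((((continuous_const).add (continuous_const.mul hcU)).add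
    (continuous_const.mul hUc)).add (continuous_const.mul (hUc.mul hcU))).norm

/-- orientation preserving case -/
lemma mc_direct {e : ℝ} (he0 : 0 < e) (he1 : e < 1) (hM : OP e) (m00 m01 m10 m11 : ℂ)
    (h : ‖m01‖ + ‖m10‖ ≤ ‖m00‖ + ‖m11‖) : ∃ T W : ℝ → ℝ, IsCpl T W ∧
      (∀ x, T (x + 2*π) = T x + 2*π) ∧ Function.Periodic W (2*π) ∧
      2 * π * (‖m00‖ + ‖m11‖) ^ (1 - e) ≤
        ∫ φ in (0:ℝ)..(2*π), ‖Pr m00 m01 m10 m11 (U φ) (U (T φ))‖ ^ (1 - e) * W φ ^ e := by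
  obtain ⟨χ, φ₀, ρ, hρ0, hρ1, hpt⟩ := point_gen m00 m01 m10 m11 h
  obtain ⟨a, ha0, ha1, hint⟩ := hM ρ hρ0 hρ1
  have hcpl := isCpl_moeb ha0 ha1 χ φ₀
  refine ⟨Tf a χ φ₀, Wf a φ₀, hcpl, ?_, ?_, ?_⟩
  · intro x
    unfold Tf ηf
    rw [show x + 2 * π - φ₀ = (x - φ₀) + 2*π by ring, Real.sin_add_two_pi, Real.cos_add_two_pi]
    ring
  · intro x
    unfold Wf wf
    rw [show x + 2 * π - φ₀ = (x - φ₀) + 2*π by ring, Real.cos_add_two_pi]
  set R := ‖m00‖ + ‖m11‖ with hR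
  have hR0 : 0 ≤ R := by positivity
  set F : ℝ → ℝ := fun φ =>
    |(1 + a * ρ + (a + ρ) * Real.cos φ) / √(wf a φ)| ^ (1 - e) * ((1 - a^2) / wf a φ) ^ e with hF
  have hFc : Continuous F := continuous_OPint he0 he1 ha0 ha1 ρ
  have hFp : Function.Periodic F (2*π) := by
    intro x
    simp only [hF]
    unfold wf
    rw [Real.cos_add_two_pi]
  have hshift : ∫ φ in (0:ℝ)..(2*π), F (φ - φ₀) = ∫ φ in (0:ℝ)..(2*π), F φ := by
    rw [intervalIntegral.integral_comp_sub_right F φ₀]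
    have := hFp.intervalIntegral_add_eq (0 - φ₀) 0
    rw [zero_add] at this
    rw [← this]; congr 1; ring
  calc 2 * π * R ^ (1 - e) ≤ (∫ φ in (0:ℝ)..(2*π), F φ) * R ^ (1 - e) := by
        have : 0 ≤ R ^ (1 - e) := Real.rpow_nonneg hR0 _
        gcongr
    _ = ∫ φ in (0:ℝ)..(2*π), R ^ (1 - e) * F (φ - φ₀) := by
        rw [intervalIntegral.integral_const_mul, hshift]; ring
    _ ≤ _ := by
        apply intervalIntegral.integral_mono_on (by positivity)
        · exact (continuous_const.mul (hFc.comp (by fun_prop))).intervalIntegrable _ _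
        · exact (continuous_Pr_rpow he0 he1 hcpl.contT hcpl.contW m00 m01 m10 m11).intervalIntegrable
            _ _
        · intro φ _
          have h1 := hpt (ηf a (φ - φ₀)) φ
          rw [Y_eq ha0 ha1] at h1
          simp only [hF]
          rw [← mul_assoc, ← Real.mul_rpow hR0 (abs_nonneg _)]
          have h2 : 0 ≤ ((1 - a^2) / wf a (φ - φ₀)) ^ e :=
            Real.rpow_nonneg (hcpl.nonneg φ) _
          have h3 : 0 ≤ 1 - e := by linarith
          change _ ≤ ‖Pr m00 m01 m10 m11 (U φ) (U (Tf a χ φ₀ φ))‖ ^ (1 - e)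
            * ((1 - a^2) / wf a (φ - φ₀)) ^ e
          unfold Tf
          gcongr

/-- (M) from the one-parameter inequality. -/
theorem mc_of_op {e : ℝ} (he0 : 0 < e) (he1 : e < 1) (hM : OP e) : MC e := by
  intro m00 m01 m10 m11
  have htri : ‖m00 + m11‖ ≤ ‖m00‖ + ‖m11‖ := norm_add_le _ _
  have he1' : 0 ≤ 1 - e := by linarith
  rcases le_total (‖m01‖ + ‖m10‖) (‖m00‖ + ‖m11‖) with h | h
  · obtain ⟨T, W, hc, _, _, hint⟩ := mc_direct he0 he1 hM m00 m01 m10 m11 h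
    refine ⟨T, W, hc, le_trans ?_ hint⟩
    have := Real.pi_pos
    gcongr
  · obtain ⟨T, W, hc, hT, hW, hint⟩ := mc_direct he0 he1 hM m01 m00 m11 m10 h
    refine ⟨fun φ => T (-φ), fun φ => W (-φ), isCpl_reflect hc hT hW, ?_⟩
    have h1 : 2 * π * ‖m00 + m11‖ ^ (1 - e) ≤ 2 * π * (‖m01‖ + ‖m10‖) ^ (1 - e) := by
      have := Real.pi_pos
      have := htri.trans h
      gcongr
    refine (h1.trans hint).trans (le_of_eq ?_)
    -- reflect
    set G : ℝ → ℝ := fun φ => ‖Pr m01 m00 m11 m10 (U φ) (U (T φ))‖ ^ (1 - e) * W φ ^ e with hG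
    have hGp : Function.Periodic G (2*π) := by
      intro x
      simp only [hG]
      rw [U_two_pi, hT, U_two_pi, hW]
    have e1 : ∫ φ in (0:ℝ)..(2*π), G (-φ) = ∫ φ in (0:ℝ)..(2*π), G φ := by
      rw [intervalIntegral.integral_comp_neg G]
      have e2 := hGp.intervalIntegral_add_eq (-(2*π)) 0
      rw [neg_add_cancel, zero_add] at e2
      rw [neg_zero, e2]
    rw [← e1]
    apply intervalIntegral.integral_congr
    intro φ _
    simp only [hG]
    congr 2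
    -- the pairing with z replaced by its conjugate
    have hz : (starRingEnd ℂ) (U (-φ)) = U φ := by rw [conj_U, neg_neg]
    have hz2 : (starRingEnd ℂ) (U φ) = U (-φ) := conj_U φ
    have h11 : U φ * U (-φ) = 1 := by rw [← U_add, add_neg_cancel, U_zero]
    have e3 : Pr m01 m00 m11 m10 (U (-φ)) (U (T (-φ))) =
        U φ * Pr m00 m01 m10 m11 (U φ) (U (T (-φ))) := by
      unfold Pr
      rw [hz, hz2]
      linear_combination (- m01 - m11 * U (T (-φ))) * h11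
    rw [e3, norm_mul, norm_U, one_mul]

end Pool.Agent.TAA
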