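import Pool.Agent.Lib_helper84.TAA.Base

/-!
TorusAA: the inequality (S*) for multi-affine polynomials on the polytorus.
-/

namespace Pool.Agent.TAA

open Real MeasureTheory intervalIntegral

/-! ### Hoelder -/

lemma holder_eps {e : ℝ} (he0 : 0 < e) (he1 : e < 1) {f g : ℝ → ℝ} (hf : Continuous f)
    (hg : Continuous g) (hf0 : ∀ x, 0 ≤ f x) (hg0 : ∀ x, 0 ≤ g x) {A B : ℝ}
    (hA : ∫ x in (0:ℝ)..(2*π), f x ≤ A) (hB : ∫ x in (0:ℝ)..(2*π), g x ≤ B)
    (hA0 : 0 < A) (hB0 : 0 < B) :
    ∫ x in (0:ℝ)..(2*π), f x ^ (1 - e) * g x ^ e ≤ A ^ (1 - e) * B ^ e := by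
  have hpt : ∀ x, f x ^ (1 - e) * g x ^ e ≤
      A ^ (1 - e) * B ^ e * ((1 - e) * (f x / A) + e * (g x / B)) := by
    intro x
    have h1 := Real.geom_mean_le_arith_mean2_weighted (w₁ := 1 - e) (w₂ := e) (p₁ := f x / A)
      (p₂ := g x / B) (by linarith) he0.le (div_nonneg (hf0 x) hA0.le)
      (div_nonneg (hg0 x) hB0.le) (by ring)
    have h2 : 0 ≤ A ^ (1 - e) * B ^ e := by positivity
    have h3 := mul_le_mul_of_nonneg_left h1 h2
    refine le_trans (le_of_eq ?_) h3
    rw [Real.div_rpow (hf0 x) hA0.le, Real.div_rpow (hg0 x) hB0.le]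
    have : A ^ (1 - e) ≠ 0 := (Real.rpow_pos_of_pos hA0 _).ne'
    have : B ^ e ≠ 0 := (Real.rpow_pos_of_pos hB0 _).ne'
    field_simp
  have hc1 : Continuous (fun x => f x ^ (1 - e) * g x ^ e) :=
    (hf.rpow_const (fun _ => Or.inr (by linarith))).mul (hg.rpow_const (fun _ => Or.inr he0.le))
  have hc2 : Continuous (fun x => A ^ (1 - e) * B ^ e * ((1 - e) * (f x / A) + e * (g x / B))) := by
    fun_prop
  calc ∫ x in (0:ℝ)..(2*π), f x ^ (1 - e) * g x ^ e
      ≤ ∫ x in (0:ℝ)..(2*π), A ^ (1 - e) * B ^ e * ((1 - e) * (f x / A) + e * (g x / B)) := by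
        apply intervalIntegral.integral_mono_on (by positivity) (hc1.intervalIntegrable _ _)
          (hc2.intervalIntegrable _ _)
        intro x _; exact hpt x
    _ = A ^ (1 - e) * B ^ e * ((1 - e) * ((∫ x in (0:ℝ)..(2*π), f x) / A)
          + e * ((∫ x in (0:ℝ)..(2*π), g x) / B)) := by
        rw [intervalIntegral.integral_const_mul, intervalIntegral.integral_add,
          intervalIntegral.integral_const_mul, intervalIntegral.integral_const_mul,
          intervalIntegral.integral_div, intervalIntegral.integral_div]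
        all_goals (apply Continuous.intervalIntegrable; fun_prop)
    _ ≤ A ^ (1 - e) * B ^ e * ((1 - e) * 1 + e * 1) := by
        have h1 : (∫ x in (0:ℝ)..(2*π), f x) / A ≤ 1 := by rw [div_le_one hA0]; exact hA
        have h2 : (∫ x in (0:ℝ)..(2*π), g x) / B ≤ 1 := by rw [div_le_one hB0]; exact hB
        have h3 : 0 ≤ 1 - e := by linarith
        gcongr
    _ = _ := by ring

lemma holder {e : ℝ} (he0 : 0 < e) (he1 : e < 1) {f g : ℝ → ℝ} (hf : Continuous f)
    (hg : Continuous g) (hf0 : ∀ x, 0 ≤ f x) (hg0 : ∀ x, 0 ≤ g x) :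
    ∫ x in (0:ℝ)..(2*π), f x ^ (1 - e) * g x ^ e ≤
      (∫ x in (0:ℝ)..(2*π), f x) ^ (1 - e) * (∫ x in (0:ℝ)..(2*π), g x) ^ e := by
  set F := ∫ x in (0:ℝ)..(2*π), f x with hF
  set G := ∫ x in (0:ℝ)..(2*π), g x with hG
  have hF0 : 0 ≤ F := intervalIntegral.integral_nonneg (by positivity) (fun x _ => hf0 x)
  have hG0 : 0 ≤ G := intervalIntegral.integral_nonneg (by positivity) (fun x _ => hg0 x)
  have hlim : Filter.Tendsto (fun n : ℕ => (F + 1/((n:ℝ)+1)) ^ (1 - e) * (G + 1/((n:ℝ)+1)) ^ e)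
      Filter.atTop (nhds (F ^ (1 - e) * G ^ e)) := by
    have h1 : Filter.Tendsto (fun n : ℕ => F + 1/((n:ℝ)+1)) Filter.atTop (nhds F) := by
      simpa using (tendsto_const_nhds (x := F)).add tendsto_one_div_add_atTop_nhds_zero_nat
    have h2 : Filter.Tendsto (fun n : ℕ => G + 1/((n:ℝ)+1)) Filter.atTop (nhds G) := by
      simpa using (tendsto_const_nhds (x := G)).add tendsto_one_div_add_atTop_nhds_zero_nat
    exact (h1.rpow_const (Or.inr (by linarith))).mul (h2.rpow_const (Or.inr he0.le))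
  refine ge_of_tendsto' hlim (fun n => ?_)
  have hn : 0 < 1/((n:ℝ)+1) := by positivity
  exact holder_eps he0 he1 hf hg hf0 hg0 (by linarith) (by linarith) (by linarith) (by linarith)

/-! ### the norms -/

variable {ι : Type*} [DecidableEq ι]

/-- value of variable `i` fixed to `w` -/
def Rs (i : ι) (w : ℂ) (c : Finset ι → ℂ) : Finset ι → ℂ := fun S => c S + w * c (insert i S)

/-- the iterated circle mean of the modulus -/
noncomputable def N1 : List ι → (Finset ι → ℂ) → ℝ
  | [], c => ‖c ∅‖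
  | i :: l, c => (2*π)⁻¹ * ∫ φ in (0:ℝ)..(2*π), N1 l (Rs i (U φ) c)

/-- polynomial value -/
noncomputable def pv (A : Finset ι) (c : Finset ι → ℂ) (z : ι → ℂ) : ℂ :=
  ∑ S ∈ A.powerset, c S * ∏ i ∈ S, z i

/-- coefficient pairing -/
noncomputable def ip (A : Finset ι) (c d : Finset ι → ℂ) : ℂ :=
  ∑ S ∈ A.powerset, c S * (starRingEnd ℂ) (d S)

lemma pv_insert {A : Finset ι} {i : ι} (hi : i ∉ A) (c : Finset ι → ℂ) (z : ι → ℂ) :
    pv (insert i A) c z = pv A (Rs i (z i) c) z := by
  unfold pv Rs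
  rw [Finset.sum_powerset_insert hi, ← Finset.sum_add_distrib]
  apply Finset.sum_congr rfl
  intro S hS
  have hiS : i ∉ S := fun h => hi (Finset.mem_powerset.mp hS h)
  rw [Finset.prod_insert hiS]; ring

omit [DecidableEq ι] in
lemma pv_congr {A : Finset ι} (c : Finset ι → ℂ) {z z' : ι → ℂ} (h : ∀ i ∈ A, z i = z' i) :
    pv A c z = pv A c z' := by
  unfold pv
  apply Finset.sum_congr rfl
  intro S hS
  congr 1
  exact Finset.prod_congr rfl (fun i hi => h i (Finset.mem_powerset.mp hS hi))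

lemma pv_update {A : Finset ι} {i : ι} (hi : i ∉ A) (c : Finset ι → ℂ) (w : ℂ) (z : ι → ℂ) :
    pv A (Rs i w c) z = pv (insert i A) c (Function.update z i w) := by
  rw [pv_insert hi, Function.update_self]
  apply pv_congr
  intro j hj
  have : j ≠ i := fun h => hi (h ▸ hj)
  rw [Function.update_of_ne this]

lemma ip_insert {A : Finset ι} {i : ι} (hi : i ∉ A) (c d : Finset ι → ℂ) :
    ip (insert i A) c d = ip A c d + ip A (fun S => c (insert i S)) (fun S => d (insert i S)) := by
  unfold ip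
  rw [Finset.sum_powerset_insert hi]

lemma ip_Rs (A : Finset ι) (i : ι) (w z : ℂ) (c d : Finset ι → ℂ) :
    ip A (Rs i w c) (Rs i z d) = ip A c d + ip A c (fun S => d (insert i S)) * (starRingEnd ℂ) z
      + ip A (fun S => c (insert i S)) d * w
      + ip A (fun S => c (insert i S)) (fun S => d (insert i S)) * (w * (starRingEnd ℂ) z) := by
  unfold ip Rs
  rw [Finset.sum_mul, Finset.sum_mul, Finset.sum_mul, ← Finset.sum_add_distrib,
    ← Finset.sum_add_distrib, ← Finset.sum_add_distrib]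
  apply Finset.sum_congr rfl
  intro S _
  rw [map_add, map_mul]; ring

variable [Finite ι]

omit [Finite ι] in
lemma continuous_Rs (i : ι) :
    Continuous (fun p : (Finset ι → ℂ) × ℝ => Rs i (U p.2) p.1) := by
  unfold Rs
  refine continuous_pi (fun S => ?_)
  exact ((continuous_apply S).comp continuous_fst).add
    ((continuous_U.comp continuous_snd).mul ((continuous_apply (insert i S)).comp continuous_fst))

lemma continuous_N1 (l : List ι) : Continuous (N1 l) := by
  induction l with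
  | nil => exact (continuous_apply _).norm
  | cons i l ih =>
    have h1 : Continuous (Function.uncurry (fun (c : Finset ι → ℂ) (φ : ℝ) =>
        N1 l (Rs i (U φ) c))) := ih.comp (continuous_Rs i)
    have h2 := intervalIntegral.continuous_parametric_intervalIntegral_of_continuous' h1 0 (2*π)
      (μ := volume)
    exact continuous_const.mul h2

omit [Finite ι] in
lemma N1_nonneg (l : List ι) (c : Finset ι → ℂ) : 0 ≤ N1 l c := by
  induction l generalizing c with
  | nil => exact norm_nonneg _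
  | cons i l ih =>
    have : 0 ≤ ∫ φ in (0:ℝ)..(2*π), N1 l (Rs i (U φ) c) :=
      intervalIntegral.integral_nonneg (by positivity) (fun x _ => ih _)
    unfold N1
    positivity

lemma continuous_N1_Rs (l : List ι) (i : ι) (c : Finset ι → ℂ) :
    Continuous (fun φ : ℝ => N1 l (Rs i (U φ) c)) :=
  (continuous_N1 l).comp ((continuous_Rs i).comp (continuous_const.prodMk continuous_id))

/-- (S*): the induction. -/
theorem star {e : ℝ} (he0 : 0 < e) (he1 : 2 * e < 1) (hM : MC e) (l : List ι) (hl : l.Nodup) :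
    ∀ (c d : Finset ι → ℂ) (M : ℝ), 0 ≤ M →
      (∀ z : ι → ℂ, (∀ i, ‖z i‖ = 1) → ‖pv l.toFinset c z‖ ≤ M) →
      ‖ip l.toFinset c d‖ ^ (1 - e) ≤ N1 l d ^ (1 - e) * N1 l c ^ e * M ^ (1 - 2 * e) := by
  induction l with
  | nil =>
    intro c d M hM0 hbd
    have h1 : ‖c ∅‖ ≤ M := by
      have := hbd (fun _ => 1) (fun _ => by simp)
      simpa [pv] using this
    have h2 : ip (([] : List ι).toFinset) c d = c ∅ * (starRingEnd ℂ) (d ∅) := by
      simp [ip]
    rw [h2, norm_mul, RCLike.norm_conj, Real.mul_rpow (norm_nonneg _) (norm_nonneg _)]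
    have h3 : ‖c ∅‖ ^ (1 - e) = ‖c ∅‖ ^ e * ‖c ∅‖ ^ (1 - 2 * e) := by
      rw [← Real.rpow_add_of_nonneg (norm_nonneg _) he0.le (by linarith)]; congr 1; ring
    have h4 : ‖c ∅‖ ^ (1 - 2 * e) ≤ M ^ (1 - 2 * e) :=
      Real.rpow_le_rpow (norm_nonneg _) h1 (by linarith)
    have h5 : N1 ([] : List ι) d = ‖d ∅‖ := rfl
    have h6 : N1 ([] : List ι) c = ‖c ∅‖ := rfl
    rw [h3, h5, h6]
    calc ‖c ∅‖ ^ e * ‖c ∅‖ ^ (1 - 2 * e) * ‖d ∅‖ ^ (1 - e)
        ≤ ‖c ∅‖ ^ e * M ^ (1 - 2 * e) * ‖d ∅‖ ^ (1 - e) := by gcongr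
      _ = _ := by ring
  | cons i l ih =>
    intro c d M hM0 hbd
    have hil : i ∉ l.toFinset := by
      rw [List.mem_toFinset]; exact (List.nodup_cons.mp hl).1
    have hl' := (List.nodup_cons.mp hl).2
    have hto : (i :: l).toFinset = insert i l.toFinset := by simp
    rw [hto]
    rw [hto] at hbd
    set A := l.toFinset with hA
    -- matrix
    set m00 := ip A c d
    set m01 := ip A c (fun S => d (insert i S))
    set m10 := ip A (fun S => c (insert i S)) d
    set m11 := ip A (fun S => c (insert i S)) (fun S => d (insert i S))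
    obtain ⟨T, W, hcpl, hmain⟩ := hM m00 m01 m10 m11
    have hTc := hcpl.contT
    have hWc := hcpl.contW
    have hw := hcpl.nonneg
    set Nd : ℝ → ℝ := fun φ => N1 l (Rs i (U φ) d) with hNd
    set Lc : ℝ → ℝ := fun φ => N1 l (Rs i (U φ) c) with hLc
    have hNdc : Continuous Nd := continuous_N1_Rs l i d
    have hLcc : Continuous Lc := continuous_N1_Rs l i c
    have hNd0 : ∀ φ, 0 ≤ Nd φ := fun φ => N1_nonneg _ _
    have hLc0 : ∀ φ, 0 ≤ Lc φ := fun φ => N1_nonneg _ _
    have hLcp : Function.Periodic Lc (2*π) := by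
      intro x
      simp only [hLc]
      rw [U_two_pi]
    -- pointwise
    have hpt : ∀ φ : ℝ, ‖Pr m00 m01 m10 m11 (U φ) (U (T φ))‖ ^ (1 - e) * W φ ^ e ≤
        M ^ (1 - 2 * e) * (Nd φ ^ (1 - e) * (Lc (T φ) * W φ) ^ e) := by
      intro φ
      have h1 := ih hl' (Rs i (U (T φ)) c) (Rs i (U φ) d) M hM0 (by
        intro z hz
        rw [pv_update hil]
        apply hbd
        intro j
        rcases eq_or_ne j i with h | h
        · rw [h, Function.update_self]; exact norm_U _
        · rw [Function.update_of_ne h]; exact hz j)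
      rw [ip_Rs] at h1
      rw [Real.mul_rpow (hLc0 _) (hw φ)]
      have h2 : 0 ≤ W φ ^ e := Real.rpow_nonneg (hw φ) _
      calc _ ≤ (Nd φ ^ (1 - e) * Lc (T φ) ^ e * M ^ (1 - 2 * e)) * W φ ^ e := by
            exact mul_le_mul_of_nonneg_right h1 h2
        _ = _ := by ring
    have hUc : Continuous (fun φ => U (T φ)) := continuous_U.comp hTc
    have hcU : Continuous (fun φ => (starRingEnd ℂ) (U φ)) :=
      Complex.continuous_conj.comp continuous_U
    have hc1 : Continuous (fun φ : ℝ => ‖Pr m00 m01 m10 m11 (U φ) (U (T φ))‖ ^ (1 - e)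
        * W φ ^ e) := by
      refine Continuous.mul ?_ (hWc.rpow_const (fun _ => Or.inr he0.le))
      refine Continuous.rpow_const ?_ (fun _ => Or.inr (by linarith))
      unfold Pr
      exact ((((continuous_const).add (continuous_const.mul hcU)).add
        (continuous_const.mul hUc)).add (continuous_const.mul (hUc.mul hcU))).norm
    have hgc : Continuous (fun φ : ℝ => Lc (T φ) * W φ) := (hLcc.comp hTc).mul hWc
    have hg0 : ∀ φ : ℝ, 0 ≤ Lc (T φ) * W φ := fun φ => mul_nonneg (hLc0 _) (hw φ)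
    have hint : ∫ φ in (0:ℝ)..(2*π), ‖Pr m00 m01 m10 m11 (U φ) (U (T φ))‖ ^ (1 - e) * W φ ^ e ≤
        M ^ (1 - 2 * e) * ((∫ φ in (0:ℝ)..(2*π), Nd φ) ^ (1 - e) *
          (∫ φ in (0:ℝ)..(2*π), Lc φ) ^ e) := by
      calc _ ≤ ∫ φ in (0:ℝ)..(2*π), M ^ (1 - 2 * e) *
          (Nd φ ^ (1 - e) * (Lc (T φ) * W φ) ^ e) := by
            apply intervalIntegral.integral_mono_on (by positivity) (hc1.intervalIntegrable _ _)
            · apply Continuous.intervalIntegrable
              exact continuous_const.mul ((hNdc.rpow_const (fun _ => Or.inr (by linarith))).mul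
                (hgc.rpow_const (fun _ => Or.inr he0.le)))
            · intro φ _; exact hpt φ
        _ = M ^ (1 - 2 * e) * ∫ φ in (0:ℝ)..(2*π),
          (Nd φ ^ (1 - e) * (Lc (T φ) * W φ) ^ e) := by
            rw [intervalIntegral.integral_const_mul]
        _ ≤ _ := by
            have h3 := holder he0 (by linarith) hNdc hgc hNd0 hg0
            rw [hcpl.cov Lc hLcc hLcp] at h3
            have : 0 ≤ M ^ (1 - 2 * e) := Real.rpow_nonneg hM0 _
            gcongr
    have hfin := hmain.trans hint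
    have hND : ∫ φ in (0:ℝ)..(2*π), Nd φ = (2*π) * N1 (i :: l) d := by
      have : N1 (i :: l) d = (2*π)⁻¹ * ∫ φ in (0:ℝ)..(2*π), Nd φ := rfl
      rw [this, ← mul_assoc, mul_inv_cancel₀ (by positivity), one_mul]
    have hLC : ∫ φ in (0:ℝ)..(2*π), Lc φ = (2*π) * N1 (i :: l) c := by
      have : N1 (i :: l) c = (2*π)⁻¹ * ∫ φ in (0:ℝ)..(2*π), Lc φ := rfl
      rw [this, ← mul_assoc, mul_inv_cancel₀ (by positivity), one_mul]
    have h2pi : (0:ℝ) < 2 * π := by positivity
    rw [hND, hLC, Real.mul_rpow h2pi.le (N1_nonneg _ _), Real.mul_rpow h2pi.le (N1_nonneg _ _)]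
      at hfin
    have h5 : (2*π) ^ (1 - e) * (2*π) ^ e = 2 * π := by
      rw [← Real.rpow_add h2pi]; norm_num
    have h6 : M ^ (1 - 2 * e) * ((2*π) ^ (1 - e) * N1 (i :: l) d ^ (1 - e) *
        ((2*π) ^ e * N1 (i :: l) c ^ e)) =
        (2 * π) * (N1 (i :: l) d ^ (1 - e) * N1 (i :: l) c ^ e * M ^ (1 - 2 * e)) := by
      linear_combination (M ^ (1 - 2 * e) * N1 (i :: l) d ^ (1 - e) * N1 (i :: l) c ^ e) * h5
    rw [h6] at hfin
    rw [ip_insert hil]
    exact le_of_mul_le_mul_left hfin h2pi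

/-- domination: pointwise bounds on the torus pass to the means -/
lemma dom {κ : Type*} (J : Finset κ) (l : List ι) (hl : l.Nodup) : ∀ (C : κ → Finset ι → ℂ) (K : ℝ),
    (∀ z : ι → ℂ, (∀ i, ‖z i‖ = 1) → ∑ j ∈ J, ‖pv l.toFinset (C j) z‖ ≤ K) →
    ∑ j ∈ J, N1 l (C j) ≤ K := by
  induction l with
  | nil =>
    intro C K h
    have := h (fun _ => 1) (fun _ => by simp)
    simpa [pv, N1] using this
  | cons i l ih =>
    intro C K h
    have hil : i ∉ l.toFinset := by
      rw [List.mem_toFinset]; exact (List.nodup_cons.mp hl).1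
    have hl' := (List.nodup_cons.mp hl).2
    have hto : (i :: l).toFinset = insert i l.toFinset := by simp
    rw [hto] at h
    have hpt : ∀ φ : ℝ, ∑ j ∈ J, N1 l (Rs i (U φ) (C j)) ≤ K := by
      intro φ
      apply ih hl' (fun j => Rs i (U φ) (C j)) K
      intro z hz
      have := h (Function.update z i (U φ)) (by
        intro j
        rcases eq_or_ne j i with h | h
        · rw [h, Function.update_self]; exact norm_U _
        · rw [Function.update_of_ne h]; exact hz j)
      simpa only [← pv_update hil] using this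
    have hsum : ∑ j ∈ J, N1 (i :: l) (C j) =
        (2*π)⁻¹ * ∫ φ in (0:ℝ)..(2*π), ∑ j ∈ J, N1 l (Rs i (U φ) (C j)) := by
      rw [intervalIntegral.integral_finsetSum
        (fun j _ => (continuous_N1_Rs l i (C j)).intervalIntegrable _ _), Finset.mul_sum]
      rfl
    rw [hsum]
    have h1 : ∫ φ in (0:ℝ)..(2*π), ∑ j ∈ J, N1 l (Rs i (U φ) (C j)) ≤
        ∫ φ in (0:ℝ)..(2*π), K := by
      apply intervalIntegral.integral_mono_on (by positivity)
      · exact (continuous_finsetSum _ (fun j _ => continuous_N1_Rs l i (C j))).intervalIntegrable _ _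
      · exact continuous_const.intervalIntegrable _ _
      · intro φ _; exact hpt φ
    rw [intervalIntegral.integral_const, smul_eq_mul] at h1
    calc (2*π)⁻¹ * ∫ φ in (0:ℝ)..(2*π), ∑ j ∈ J, N1 l (Rs i (U φ) (C j))
        ≤ (2*π)⁻¹ * ((2 * π - 0) * K) := by gcongr
      _ = K := by rw [sub_zero, ← mul_assoc, inv_mul_cancel₀ (by positivity), one_mul]

end Pool.Agent.TAA
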